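import Pool.Agent.TH152.C8E.F

/-!
# The canonical orders at the prime divisors

The canonical orders of the foliation `(∂_a, ∂_b, ∂_c)` at the prime divisors of the normalization
of `P^1 x P^1 x P^1` and at the exceptional divisor of the blow-up of the origin.
-/

set_option autoImplicit false

namespace Pool.Agent.TH152.C8_EXACT

open Pool.Agent.H436R3.Fol Pool.Agent.TH202 MvPolynomial Pool.Agent.TH152.C8E

/-- The canonical order at the prime divisors of the normalization of `P^1 x P^1 x P^1`. -/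
theorem exact_one {K : Type} [Field K] [Algebra ℂ K] [Algebra.EssFiniteType ℂ K] (d : Dat K)
    (T : Foliation K 3) (hT : IsPd d T) (ta tb tc : K) (ha : ta = d.a ∨ ta = d.a⁻¹)
    (hb : tb = d.b ∨ tb = d.b⁻¹) (hc : tc = d.c ∨ tc = d.c⁻¹) (w : DVal K)
    (hw : IsLocalRing' (IC ![ta, tb, tc]) w)
    (hover : ∃ π : MvPolynomial (Fin 3) ℂ, Prime π ∧
      ∀ q, w.Pos (aeval ![ta, tb, tc] q) ↔ π ∣ q) :
    min (w.ord d.a) (min (w.ord d.b) (w.ord d.c)) ≤ 0 ∧
    ∃ n : ℤ, IsCanOrd T w n ∧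
      (n : ℝ) = 2 / 3 * (w.ord ((1 - d.a ^ 2) / d.a ^ 2) : ℝ)
        + 2 / 3 * (w.ord ((1 - d.b ^ 2) / d.b ^ 2) : ℝ) + 2 * (w.ord d.a : ℝ) + 2 * (w.ord d.b : ℝ)
        - 2 * ng (w.ord d.c) :=
  main_one d T hT ta tb tc ha hb hc w hw hover

/-- The canonical order at the exceptional divisor of the blow-up of the origin. -/
theorem exact_two {K : Type} [Field K] [Algebra ℂ K] [Algebra.EssFiniteType ℂ K] (d : Dat K)
    (T : Foliation K 3) (hT : IsPd d T) (w : DVal K)
    (hw : IsLocalRing' (IC ![d.a, d.b / d.a, d.c / d.a]) w) (hwa : 0 < w.ord d.a)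
    (hover : ∃ π : MvPolynomial (Fin 3) ℂ, Prime π ∧
      ∀ q, w.Pos (aeval ![d.a, d.b / d.a, d.c / d.a] q) ↔ π ∣ q) :
    w.ord d.a = 1 ∧ w.ord d.b = 1 ∧ w.ord d.c = 1 ∧ IsCanOrd T w 2 := by
  obtain ⟨π, hπ, hpos⟩ := hover
  obtain ⟨mA, mB, mC⟩ := mem_base d
  have ha0 := dat_a d
  have hb0 := dat_b d
  have hc0 := dat_c d
  have H0 : Ctx d ![d.a, d.b / d.a, d.c / d.a] w π := by
    have m0 : d.a ∈ IntermediateField.adjoin ℂ (Set.range ![d.a, d.b / d.a, d.c / d.a]) :=
      IntermediateField.subset_adjoin _ _ ⟨0, rfl⟩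
    have m1 : d.b / d.a ∈ IntermediateField.adjoin ℂ (Set.range ![d.a, d.b / d.a, d.c / d.a]) :=
      IntermediateField.subset_adjoin _ _ ⟨1, rfl⟩
    have m2 : d.c / d.a ∈ IntermediateField.adjoin ℂ (Set.range ![d.a, d.b / d.a, d.c / d.a]) :=
      IntermediateField.subset_adjoin _ _ ⟨2, rfl⟩
    refine Ctx.of ?_ m0 ?_ ?_ hw hπ hpos
    · intro i
      fin_cases i
      · exact mA
      · exact div_mem mB mA
      · exact div_mem mC mA
    · have := mul_mem m1 m0
      rwa [div_mul_cancel₀ _ ha0] at this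
    · have := mul_mem m2 m0
      rwa [div_mul_cancel₀ _ ha0] at this
  have t0 : (![d.a, d.b / d.a, d.c / d.a] : Fin 3 → K) 0 = d.a := rfl
  have t1 : (![d.a, d.b / d.a, d.c / d.a] : Fin 3 → K) 1 = d.b / d.a := rfl
  have t2 : (![d.a, d.b / d.a, d.c / d.a] : Fin 3 → K) 2 = d.c / d.a := rfl
  set t : Fin 3 → K := ![d.a, d.b / d.a, d.c / d.a] with ht
  have hdvd : π ∣ X 0 := (H0.pos _).1 (Or.inr (by rw [aeval_X, t0]; exact hwa))
  have H := H0.of_dvd (X_prime (i := (0 : Fin 3))) hdvd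
  -- values
  have e1 : w.ord (d.b / d.a) = 0 := by
    rw [← t1]
    exact ord_X H 1 (not_dvd_of_eval ![0, 1, 1] (by simp) (by simp))
  have e2 : w.ord (d.c / d.a) = 0 := by
    rw [← t2]
    exact ord_X H 2 (not_dvd_of_eval ![0, 1, 1] (by simp) (by simp))
  rw [w.ord_div hb0 ha0] at e1
  rw [w.ord_div hc0 ha0] at e2
  have e3 : w.ord (1 - d.a ^ 2) = 0 := by
    have h1 : ¬ (X 0 : R3) ∣ 1 - X 0 ^ 2 := not_dvd_of_eval 0 (by simp) (by simp)
    have h2 := H.ord_zero h1
    rwa [map_sub, map_one, map_pow, aeval_X, t0] at h2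
  have e4 : w.ord (1 - d.b ^ 2) = 0 := by
    have h1 : ¬ (X 0 : R3) ∣ 1 - (X 1 * X 0) ^ 2 := not_dvd_of_eval 0 (by simp) (by simp)
    have h2 := H.ord_zero h1
    rwa [map_sub, map_one, map_pow, map_mul, aeval_X, aeval_X, t0, t1,
      div_mul_cancel₀ _ ha0] at h2
  have hr := ord_r d w
  have hr' : w.ord d.r = 0 := by omega
  have Daa : T.D 0 d.a = 1 := hT 0 0
  have Dab : T.D 0 d.b = 0 := hT 0 1
  have Dac : T.D 0 d.c = 0 := hT 0 2
  have Dba : T.D 1 d.a = 0 := hT 1 0
  have Dbb : T.D 1 d.b = 1 := hT 1 1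
  have Dbc : T.D 1 d.c = 0 := hT 1 2
  have Dca : T.D 2 d.a = 0 := hT 2 0
  have Dcb : T.D 2 d.b = 0 := hT 2 1
  have Dcc : T.D 2 d.c = 1 := hT 2 2
  have hx : ∀ (D : Derivation ℂ K K) (j : Fin 3), D d.a = aeval t ((Pi.single j 1 : Fin 3 → R3) 0) →
      D (d.b / d.a) = aeval t ((Pi.single j 1 : Fin 3 → R3) 1) →
      D (d.c / d.a) = aeval t ((Pi.single j 1 : Fin 3 → R3) 2) → Preserves w D := by
    intro D j h0 h1 h2
    refine pres_ii H (u := Pi.single j 1) ?_ hr'
    intro i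
    fin_cases i
    · exact h0
    · exact h1
    · exact h2
  have P0 : Preserves w (T.D 0 + ((d.b / d.a) • T.D 1 + (d.c / d.a) • T.D 2)) := by
    refine hx _ 0 ?_ ?_ ?_
    · rw [Pi.single_eq_same, map_one]
      simp only [Derivation.add_apply, Derivation.smul_apply, Daa, Dba, Dca, smul_zero, add_zero]
    · rw [Pi.single_eq_of_ne (by decide), map_zero, Derivation.leibniz_div]
      simp only [Derivation.add_apply, Derivation.smul_apply, Daa, Dba, Dca, Dab, Dbb, Dcb,
        smul_eq_mul, mul_zero, add_zero, mul_one, zero_add]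
      field_simp
      ring
    · rw [Pi.single_eq_of_ne (by decide), map_zero, Derivation.leibniz_div]
      simp only [Derivation.add_apply, Derivation.smul_apply, Daa, Dba, Dca, Dac, Dbc, Dcc,
        smul_eq_mul, mul_zero, add_zero, mul_one, zero_add]
      field_simp
      ring
  have P1 : Preserves w (d.a • T.D 1) := by
    refine hx _ 1 ?_ ?_ ?_
    · rw [Pi.single_eq_of_ne (by decide), map_zero]
      simp only [Derivation.smul_apply, Dba, smul_zero]
    · rw [Pi.single_eq_same, map_one, Derivation.leibniz_div]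
      simp only [Derivation.smul_apply, Dba, Dbb, smul_eq_mul, mul_zero, sub_zero, mul_one]
      field_simp
    · rw [Pi.single_eq_of_ne (by decide), map_zero, Derivation.leibniz_div]
      simp only [Derivation.smul_apply, Dba, Dbc, smul_eq_mul, mul_zero, sub_zero]
  have P2 : Preserves w (d.a • T.D 2) := by
    refine hx _ 2 ?_ ?_ ?_
    · rw [Pi.single_eq_of_ne (by decide), map_zero]
      simp only [Derivation.smul_apply, Dca, smul_zero]
    · rw [Pi.single_eq_of_ne (by decide), map_zero, Derivation.leibniz_div]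
      simp only [Derivation.smul_apply, Dca, Dcb, smul_eq_mul, mul_zero, sub_zero]
    · rw [Pi.single_eq_same, map_one, Derivation.leibniz_div]
      simp only [Derivation.smul_apply, Dca, Dcc, smul_eq_mul, mul_zero, sub_zero, mul_one]
      field_simp
  -- the matrix
  let A : Matrix (Fin 3) (Fin 3) K := !![1, d.b / d.a, d.c / d.a; 0, d.a, 0; 0, 0, d.a]
  have hdet : A.det = d.a ^ 2 := by
    rw [Matrix.det_fin_three]
    simp [A]
    ring
  have hA0 : A.det ≠ 0 := by
    rw [hdet]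
    exact pow_ne_zero _ ha0
  have hA : ∀ i, Preserves w (∑ j, A i j • T.D j) := by
    intro i
    rw [Fin.sum_univ_three]
    fin_cases i
    · have : A 0 0 • T.D 0 + A 0 1 • T.D 1 + A 0 2 • T.D 2 =
          T.D 0 + ((d.b / d.a) • T.D 1 + (d.c / d.a) • T.D 2) := by
        simp [A, add_assoc]
      change Preserves w (A 0 0 • T.D 0 + A 0 1 • T.D 1 + A 0 2 • T.D 2)
      rw [this]
      exact P0
    · have : A 1 0 • T.D 0 + A 1 1 • T.D 1 + A 1 2 • T.D 2 = d.a • T.D 1 := by
        simp [A]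
      change Preserves w (A 1 0 • T.D 0 + A 1 1 • T.D 1 + A 1 2 • T.D 2)
      rw [this]
      exact P1
    · have : A 2 0 • T.D 0 + A 2 1 • T.D 1 + A 2 2 • T.D 2 = d.a • T.D 2 := by
        simp [A]
      change Preserves w (A 2 0 • T.D 0 + A 2 1 • T.D 1 + A 2 2 • T.D 2)
      rw [this]
      exact P2
  have low : ∀ B : Matrix (Fin 3) (Fin 3) K, B.det ≠ 0 →
      (∀ i, Preserves w (∑ j, B i j • T.D j)) →
      w.ord d.a + w.ord d.b + w.ord d.c - 1 ≤ w.ord B.det := by
    intro B hB0 hB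
    have hJ : (Matrix.of fun j k => T.D j ((![d.a, d.b, d.c] : Fin 3 → K) k)).det = 1 := by
      rw [Matrix.det_fin_three]
      simp [Daa, Dab, Dac, Dba, Dbb, Dbc, Dca, Dcb, Dcc]
    have h0 : ∀ k, (![d.a, d.b, d.c] : Fin 3 → K) k ≠ 0 := by
      intro k
      fin_cases k
      · exact ha0
      · exact hb0
      · exact hc0
    have := Pool.Agent.W497.Mld.gji w T.D B hB0 hB ![d.a, d.b, d.c] h0
      (by rw [hJ]; exact one_ne_zero)
    rw [hJ, w.ord_one, Fin.sum_univ_three] at this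
    change w.ord d.a + w.ord d.b + w.ord d.c - 1 ≤ _ at this
    omega
  have hdw : w.ord A.det = 2 * w.ord d.a := by
    rw [hdet, w.ord_pow ha0]
    norm_num
  have h1 := low A hA0 hA
  have ha1 : w.ord d.a = 1 := by omega
  refine ⟨ha1, by omega, by omega, isCanOrd_of A hA0 hA (by omega) ?_⟩
  intro B hB0 hB
  have := low B hB0 hB
  omega

end Pool.Agent.TH152.C8_EXACT
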