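import Pool.Agent.TH598.KG.Base

set_option autoImplicit false

open scoped Manifold ContDiff Topology ComplexConjugate MatrixGroups UpperHalfPlane Matrix
open MeasureTheory Set Filter

namespace Pool.Agent.TH152.KG

open Pool.Agent.TH598.KG
open Pool.Agent.W549.CY (Cn dz dzbar HermitianMetric chernRicci chernScalar)
open Pool.Agent.W711.KC (jj nn)

variable {n : ℕ}

theorem isOpen_UU : IsOpen UU := by
  have h : Continuous fun p : Cn 3 => (p 0).im := Complex.continuous_im.comp (continuous_apply 0)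
  exact isOpen_lt continuous_const h

theorem dz_add {i : Fin n} {f g : Cn n → ℂ} {p : Cn n} (hf : DifferentiableAt ℝ f p)
    (hg : DifferentiableAt ℝ g p) : dz i (fun q => f q + g q) p = dz i f p + dz i g p := by
  unfold dz
  rw [fderiv_fun_add hf hg]
  simp only [add_apply]
  ring

theorem dz_sub {i : Fin n} {f g : Cn n → ℂ} {p : Cn n} (hf : DifferentiableAt ℝ f p)
    (hg : DifferentiableAt ℝ g p) : dz i (fun q => f q - g q) p = dz i f p - dz i g p := by
  unfold dz
  rw [fderiv_fun_sub hf hg]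
  simp only [sub_apply]
  ring

theorem dz_mul {i : Fin n} {f g : Cn n → ℂ} {p : Cn n} (hf : DifferentiableAt ℝ f p)
    (hg : DifferentiableAt ℝ g p) :
    dz i (fun q => f q * g q) p = dz i f p * g p + f p * dz i g p := by
  unfold dz
  rw [fderiv_fun_mul hf hg]
  simp only [add_apply, smul_apply, smul_eq_mul]
  ring

theorem dz_const_mul {i : Fin n} {g : Cn n → ℂ} {p : Cn n} (c : ℂ)
    (hg : DifferentiableAt ℝ g p) :
    dz i (fun q => c * g q) p = c * dz i g p := by
  unfold dz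
  rw [fderiv_const_mul hg]
  simp only [smul_apply, smul_eq_mul]
  ring

theorem dz_sum {ι : Type*} {i : Fin n} {p : Cn n} (s : Finset ι) {f : ι → Cn n → ℂ}
    (hf : ∀ j ∈ s, DifferentiableAt ℝ (f j) p) :
    dz i (fun q => ∑ j ∈ s, f j q) p = ∑ j ∈ s, dz i (f j) p := by
  unfold dz
  rw [fderiv_fun_sum hf]
  simp only [sum_apply, Finset.mul_sum, Finset.sum_sub_distrib, mul_sub]

theorem dz_quad {i : Fin n} {f1 g1 f2 g2 f3 g3 f4 g4 : Cn n → ℂ} {p : Cn n}
    (hf1 : DifferentiableAt ℝ f1 p) (hg1 : DifferentiableAt ℝ g1 p)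
    (hf2 : DifferentiableAt ℝ f2 p) (hg2 : DifferentiableAt ℝ g2 p)
    (hf3 : DifferentiableAt ℝ f3 p) (hg3 : DifferentiableAt ℝ g3 p)
    (hf4 : DifferentiableAt ℝ f4 p) (hg4 : DifferentiableAt ℝ g4 p) :
    dz i (fun q => (f1 q * g1 q + f2 q * g2 q) - (f3 q * g3 q + f4 q * g4 q)) p =
      ((dz i f1 p * g1 p + f1 p * dz i g1 p) + (dz i f2 p * g2 p + f2 p * dz i g2 p)) -
      ((dz i f3 p * g3 p + f3 p * dz i g3 p) + (dz i f4 p * g4 p + f4 p * dz i g4 p)) := by
  have h1 : DifferentiableAt ℝ (fun q => f1 q * g1 q) p := hf1.mul hg1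
  have h2 : DifferentiableAt ℝ (fun q => f2 q * g2 q) p := hf2.mul hg2
  have h3 : DifferentiableAt ℝ (fun q => f3 q * g3 q) p := hf3.mul hg3
  have h4 : DifferentiableAt ℝ (fun q => f4 q * g4 q) p := hf4.mul hg4
  rw [dz_sub (f := fun q => f1 q * g1 q + f2 q * g2 q) (g := fun q => f3 q * g3 q + f4 q * g4 q)
    (h1.add h2) (h3.add h4), dz_add h1 h2, dz_add h3 h4, dz_mul hf1 hg1, dz_mul hf2 hg2,
    dz_mul hf3 hg3, dz_mul hf4 hg4]

theorem padj_apply (a b : M3) (k j : Fin 3) : padj a b k j =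
    (a (j + 1) (k + 1) * b (j + 2) (k + 2) + b (j + 1) (k + 1) * a (j + 2) (k + 2)) -
    (a (j + 1) (k + 2) * b (j + 2) (k + 1) + b (j + 1) (k + 2) * a (j + 2) (k + 1)) := by
  unfold padj
  rw [Matrix.adjugate_fin_three, Matrix.adjugate_fin_three, Matrix.adjugate_fin_three]
  fin_cases k <;> fin_cases j <;> simp [Matrix.sub_apply, Matrix.add_apply] <;> ring

/-- For closed forms the polarised adjugate is divergence free. -/
theorem padj_div_free {a b : Cn 3 → M3} (ha : ∀ j k, ContDiffOn ℝ 1 (fun p => a p j k) UU)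
    (hb : ∀ j k, ContDiffOn ℝ 1 (fun p => b p j k) UU) (ha' : Closed a) (hb' : Closed b) {p : Cn 3}
    (hp : p ∈ UU) (k : Fin 3) : ∑ j, dz j (fun q => padj (a q) (b q) k j) p = 0 := by
  have hda : ∀ j k, DifferentiableAt ℝ (fun p => a p j k) p := fun j k =>
    ((ha j k).differentiableOn one_ne_zero).differentiableAt (isOpen_UU.mem_nhds hp)
  have hdb : ∀ j k, DifferentiableAt ℝ (fun p => b p j k) p := fun j k =>
    ((hb j k).differentiableOn one_ne_zero).differentiableAt (isOpen_UU.mem_nhds hp)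
  have key : ∀ j, dz j (fun q => padj (a q) (b q) k j) p =
      ((dz j (fun q => a q (j + 1) (k + 1)) p * b p (j + 2) (k + 2) +
        a p (j + 1) (k + 1) * dz j (fun q => b q (j + 2) (k + 2)) p) +
       (dz j (fun q => b q (j + 1) (k + 1)) p * a p (j + 2) (k + 2) +
        b p (j + 1) (k + 1) * dz j (fun q => a q (j + 2) (k + 2)) p)) -
      ((dz j (fun q => a q (j + 1) (k + 2)) p * b p (j + 2) (k + 1) +
        a p (j + 1) (k + 2) * dz j (fun q => b q (j + 2) (k + 1)) p) +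
       (dz j (fun q => b q (j + 1) (k + 2)) p * a p (j + 2) (k + 1) +
        b p (j + 1) (k + 2) * dz j (fun q => a q (j + 2) (k + 1)) p)) := by
    intro j
    have : (fun q => padj (a q) (b q) k j) = fun q =>
      (a q (j + 1) (k + 1) * b q (j + 2) (k + 2) + b q (j + 1) (k + 1) * a q (j + 2) (k + 2)) -
      (a q (j + 1) (k + 2) * b q (j + 2) (k + 1) + b q (j + 1) (k + 2) * a q (j + 2) (k + 1)) := by
      funext q
      exact padj_apply _ _ _ _
    rw [this]
    exact dz_quad (hda _ _) (hdb _ _) (hdb _ _) (hda _ _) (hda _ _) (hdb _ _) (hdb _ _) (hda _ _)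
  have hA := ha' p hp
  have hB := hb' p hp
  rw [Fin.sum_univ_three, key, key, key]
  have e0 : (0 : Fin 3) + 1 = 1 := rfl
  have e1 : (0 : Fin 3) + 2 = 2 := rfl
  have e2 : (1 : Fin 3) + 1 = 2 := rfl
  have e3 : (1 : Fin 3) + 2 = 0 := rfl
  have e4 : (2 : Fin 3) + 1 = 0 := rfl
  have e5 : (2 : Fin 3) + 2 = 1 := rfl
  rw [e0, e1, e2, e3, e4, e5]
  rw [hA 1 0, hA 2 0, hA 2 1, hB 1 0, hB 2 0, hB 2 1, hA 1 0, hA 2 0, hA 2 1, hB 1 0, hB 2 0,
    hB 2 1]
  ring

end Pool.Agent.TH152.KG
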