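import Pool.Agent.TH152.J120a
import Pool.Agent.TH343.J117

set_option autoImplicit false

open scoped Manifold ContDiff Topology ComplexConjugate MatrixGroups UpperHalfPlane Matrix
open MeasureTheory Set Filter

namespace Pool.Agent.TH152.KG

open Pool.Agent.TH598.KG
open Pool.Agent.TH343.J117 (hf_pull hf_ext)
open Pool.Agent.W549.CY (Cn dz dzbar HermitianMetric chernRicci chernScalar)
open Pool.Agent.W711.KC (jj nn jj_ne)

/-! ### The map `ru W` -/

theorem ru_eq (W : Matrix (Fin 2) (Fin 2) ℂ) (p : Cn 3) : ru W p = (RM W).mulVec p := by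
  funext i
  fin_cases i <;> simp [ru, RM, Matrix.mulVec, dotProduct, Fin.sum_univ_three]

theorem hf_rot (W : Matrix (Fin 2) (Fin 2) ℂ) (a : Cn 3 → M3) (p v : Cn 3) :
    hf (rot W a p) v = hf (a (ru W p)) (ru W v) := by
  rw [rot, hf_pull, ← ru_eq]

/-- `ru W` as a continuous linear map. -/
noncomputable def ruL (W : Matrix (Fin 2) (Fin 2) ℂ) : Cn 3 →L[ℂ] Cn 3 :=
  LinearMap.toContinuousLinearMap (Matrix.mulVecLin (RM W))

theorem ruL_apply (W : Matrix (Fin 2) (Fin 2) ℂ) (p : Cn 3) : ruL W p = ru W p := by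
  rw [ru_eq]
  rfl

theorem ru_mem (W : Matrix (Fin 2) (Fin 2) ℂ) {p : Cn 3} (hp : p ∈ UU) : ru W p ∈ UU := hp

theorem hasFDerivAt_ru (W : Matrix (Fin 2) (Fin 2) ℂ) (p : Cn 3) :
    HasFDerivAt (𝕜 := ℂ) (ru W) (ruL W) p := by
  have h : (ru W) = fun q => ruL W q := by
    funext q
    rw [ruL_apply]
  rw [h]
  exact (ruL W).hasFDerivAt

theorem contDiff_ru (W : Matrix (Fin 2) (Fin 2) ℂ) {n : WithTop ℕ∞} : ContDiff ℝ n (ru W) := by
  have h : (ru W) = fun q => ruL W q := by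
    funext q
    rw [ruL_apply]
  rw [h]
  exact ((ruL W).restrictScalars ℝ).contDiff

/-! ### Wirtinger derivatives and complex linear maps -/

theorem wirt_expand (D : Cn 3 →L[ℝ] ℂ) (c : Cn 3) :
    D c - Complex.I * D (Complex.I • c) =
      ∑ n, c n * (D (Pi.single n 1) - Complex.I * D (Pi.single n Complex.I)) := by
  have h1 : ∀ d : Cn 3, D d = ∑ n, (((d n).re : ℂ) * D (Pi.single n 1) +
      ((d n).im : ℂ) * D (Pi.single n Complex.I)) := by
    intro d
    have e : d = ∑ n, ((d n).re • (Pi.single n 1 : Cn 3) +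
        (d n).im • (Pi.single n Complex.I : Cn 3)) := by
      funext i
      rw [Finset.sum_apply, Finset.sum_eq_single i]
      · simp [Complex.re_add_im]
      · intro b _ hb
        simp [Pi.single_eq_of_ne (Ne.symm hb)]
      · intro h
        exact absurd (Finset.mem_univ i) h
    conv_lhs => rw [e]
    rw [map_sum]
    refine Finset.sum_congr rfl fun n _ => ?_
    rw [map_add, map_smul, map_smul, Complex.real_smul, Complex.real_smul]
  rw [h1 c, h1 (Complex.I • c), Finset.mul_sum, ← Finset.sum_sub_distrib]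
  refine Finset.sum_congr rfl fun n _ => ?_
  have e1 : (Complex.I • c) n = Complex.I * c n := rfl
  rw [e1]
  have e2 : (Complex.I * c n).re = -(c n).im := by simp
  have e3 : (Complex.I * c n).im = (c n).re := by simp
  rw [e2, e3]
  conv_rhs => rw [← Complex.re_add_im (c n)]
  push_cast
  linear_combination ((c n).im : ℂ) * D (Pi.single n Complex.I) * Complex.I_sq

theorem dz_comp_ru (W : Matrix (Fin 2) (Fin 2) ℂ) {f : Cn 3 → ℂ} {p : Cn 3}
    (hf : DifferentiableAt ℝ f (ru W p)) (i : Fin 3) :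
    dz i (fun q => f (ru W q)) p = ∑ n, RM W n i * dz n f (ru W p) := by
  have h1 : HasFDerivAt (fun q => f (ru W q))
      ((fderiv ℝ f (ru W p)).comp ((ruL W).restrictScalars ℝ)) p :=
    hf.hasFDerivAt.comp p ((hasFDerivAt_ru W p).restrictScalars ℝ)
  have h2 : ∀ c : ℂ, ruL W (Pi.single i c) = c • fun n => RM W n i := by
    intro c
    rw [ruL_apply, ru_eq]
    funext n
    rw [Matrix.mulVec_single]
    simp [mul_comm]
  unfold dz
  rw [h1.fderiv]
  simp only [ContinuousLinearMap.comp_apply, ContinuousLinearMap.coe_restrictScalars', h2]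
  rw [one_smul, wirt_expand (fderiv ℝ f (ru W p)) (fun n => RM W n i), Finset.mul_sum]
  exact Finset.sum_congr rfl fun n _ => by ring

/-! ### The class of forms -/

theorem rot_apply (W : Matrix (Fin 2) (Fin 2) ℂ) (a : Cn 3 → M3) (p : Cn 3) (j k : Fin 3) :
    rot W a p j k = ∑ m, (∑ l, RM W l j * a (ru W p) l m) * conj (RM W m k) := by
  simp only [rot, Matrix.mul_apply, Matrix.transpose_apply, Matrix.map_apply]

theorem rot_c1 {a : Cn 3 → M3} (ha : ∀ j k, ContDiffOn ℝ 1 (fun p => a p j k) UU)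
    (W : Matrix (Fin 2) (Fin 2) ℂ) (j k : Fin 3) :
    ContDiffOn ℝ 1 (fun p => rot W a p j k) UU := by
  simp only [rot_apply]
  refine ContDiffOn.sum fun m _ => ContDiffOn.mul (ContDiffOn.sum fun l _ =>
    ContDiffOn.mul contDiffOn_const ?_) contDiffOn_const
  exact (ha l m).comp (contDiff_ru W).contDiffOn fun p hp => ru_mem W hp

theorem rot_herm {a : Cn 3 → M3} (ha : ∀ p ∈ UU, (a p).IsHermitian)
    (W : Matrix (Fin 2) (Fin 2) ℂ) : ∀ p ∈ UU, (rot W a p).IsHermitian := by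
  intro p hp
  have h := ha _ (ru_mem W hp)
  unfold Matrix.IsHermitian at h ⊢
  unfold rot
  have e1 : ((RM W).map conj)ᴴ = (RM W)ᵀ := by
    funext i j
    simp [Matrix.conjTranspose_apply]
  have e2 : ((RM W)ᵀ)ᴴ = (RM W).map conj := by
    funext i j
    simp [Matrix.conjTranspose_apply]
  rw [Matrix.conjTranspose_mul, Matrix.conjTranspose_mul, e1, e2, h, Matrix.mul_assoc]

theorem rot_closed {a : Cn 3 → M3} (hc : ∀ j k, ContDiffOn ℝ 1 (fun p => a p j k) UU)
    (ha : Closed a) (W : Matrix (Fin 2) (Fin 2) ℂ) : Closed (rot W a) := by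
  have hd : ∀ p ∈ UU, ∀ j k, DifferentiableAt ℝ (fun p => a p j k) p := fun p hp j k =>
    ((hc j k).differentiableOn one_ne_zero).differentiableAt (isOpen_UU.mem_nhds hp)
  have key : ∀ p ∈ UU, ∀ i j k : Fin 3, dz i (fun q => rot W a q j k) p =
      ∑ m, (∑ l, RM W l j * ∑ n, RM W n i * dz n (fun q => a q l m) (ru W p)) *
        conj (RM W m k) := by
    intro p hp i j k
    have hcomp : ∀ l m, DifferentiableAt ℝ (fun q => a (ru W q) l m) p := fun l m =>
      DifferentiableAt.comp (g := fun q => a q l m) p (hd _ (ru_mem W hp) l m)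
        (((hasFDerivAt_ru W p).restrictScalars ℝ).differentiableAt)
    simp only [rot_apply]
    rw [dz_sum]
    · refine Finset.sum_congr rfl fun m _ => ?_
      have e : (fun q => (∑ l, RM W l j * a (ru W q) l m) * conj (RM W m k)) =
          fun q => conj (RM W m k) * (∑ l, RM W l j * a (ru W q) l m) := by
        funext q
        ring
      rw [e, dz_const_mul, dz_sum, mul_comm]
      · congr 1
        refine Finset.sum_congr rfl fun l _ => ?_
        rw [dz_const_mul _ (hcomp l m), dz_comp_ru W (f := fun q => a q l m)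
          (hd _ (ru_mem W hp) l m)]
      · intro l _
        exact (hcomp l m).const_mul _
      · exact DifferentiableAt.fun_sum fun l _ => (hcomp l m).const_mul _
    · intro m _
      exact (DifferentiableAt.fun_sum fun l _ => (hcomp l m).const_mul _).mul_const _
  intro p hp i j k
  rw [key p hp, key p hp]
  refine Finset.sum_congr rfl fun m _ => ?_
  congr 1
  simp only [Finset.mul_sum]
  rw [Finset.sum_comm]
  refine Finset.sum_congr rfl fun n _ => Finset.sum_congr rfl fun l _ => ?_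
  rw [ha (ru W p) (ru_mem W hp) n l m]
  ring

/-! ### The action of `SL(2, ℝ)` -/

theorem Fa_ru (W : Matrix (Fin 2) (Fin 2) ℂ) (g : SL(2, ℝ)) (p : Cn 3) :
    Fa g (ru W p) = ru W (Fa g p) := by
  funext i
  fin_cases i
  · simp [Fa, ru]
  · simp [Fa, ru]
    ring
  · simp [Fa, ru]
    ring

theorem Fa_mem' (g : SL(2, ℝ)) {p : Cn 3} (hp : p ∈ UU) : Fa g p ∈ UU := by
  have hp' : 0 < (p 0).im := hp
  show 0 < (nn g (p 0) / jj g (p 0)).im
  rw [Pool.Agent.W711.KC.im_mob g hp']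
  exact div_pos hp' (Complex.normSq_pos.2 (jj_ne g hp'))

theorem differentiableAt_Fa (g : SL(2, ℝ)) {p : Cn 3} (hp : p ∈ UU) :
    DifferentiableAt ℂ (Fa g) p := by
  have hj : jj g (p 0) ≠ 0 := jj_ne g hp
  have h0 : ∀ i, DifferentiableAt ℂ (fun q : Cn 3 => q i) p := fun i =>
    (differentiable_apply i) p
  have hjd : DifferentiableAt ℂ (fun q : Cn 3 => jj g (q 0)) p :=
    ((h0 0).const_mul _).add_const _
  have hnd : DifferentiableAt ℂ (fun q : Cn 3 => nn g (q 0)) p :=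
    ((h0 0).const_mul _).add_const _
  have hinv : DifferentiableAt ℂ (fun q : Cn 3 => (jj g (q 0))⁻¹) p := hjd.inv hj
  have k0 : DifferentiableAt ℂ (fun q : Cn 3 => nn g (q 0) / jj g (q 0)) p := by
    simp only [div_eq_mul_inv]
    exact hnd.mul hinv
  have k1 : DifferentiableAt ℂ (fun q : Cn 3 => q 1 / jj g (q 0)) p := by
    simp only [div_eq_mul_inv]
    exact (h0 1).mul hinv
  have k2 : DifferentiableAt ℂ (fun q : Cn 3 => q 2 / jj g (q 0)) p := by
    simp only [div_eq_mul_inv]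
    exact (h0 2).mul hinv
  rw [differentiableAt_pi]
  intro i
  fin_cases i
  · exact k0
  · exact k1
  · exact k2

theorem fderiv_Fa_ru (W : Matrix (Fin 2) (Fin 2) ℂ) (g : SL(2, ℝ)) {p : Cn 3} (hp : p ∈ UU)
    (v : Cn 3) : fderiv ℂ (Fa g) (ru W p) (ru W v) = ru W (fderiv ℂ (Fa g) p v) := by
  have h1 : HasFDerivAt (fun q => Fa g (ru W q)) ((fderiv ℂ (Fa g) (ru W p)).comp (ruL W)) p :=
    (differentiableAt_Fa g (ru_mem W hp)).hasFDerivAt.comp p (hasFDerivAt_ru W p)
  have h2 : HasFDerivAt (fun q => ru W (Fa g q)) ((ruL W).comp (fderiv ℂ (Fa g) p)) p :=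
    (hasFDerivAt_ru W (Fa g p)).comp p (differentiableAt_Fa g hp).hasFDerivAt
  have h3 : (fun q => Fa g (ru W q)) = fun q => ru W (Fa g q) := by
    funext q
    exact Fa_ru W g q
  rw [h3] at h1
  have h4 := congrArg (fun L => L v) (h1.unique h2)
  simpa [ruL_apply] using h4

theorem rot_equi {Γ : Subgroup SL(2, ℝ)} {a : Cn 3 → M3} (ha : Equi Γ a)
    (W : Matrix (Fin 2) (Fin 2) ℂ) : Equi Γ (rot W a) := by
  intro g hg p hp v
  rw [hf_rot, hf_rot, ha g hg _ (ru_mem W hp), Fa_ru, fderiv_Fa_ru W g hp]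

/-! ### Invariance of the reference metric -/

theorem hf_Th (p v : Cn 3) : hf (Th p) v =
    (-(1 / (4 * (Nn p : ℂ) ^ 2)) + 1 / (4 * ((p 0).im : ℂ) ^ 2)) * (v 0 * conj (v 0)) +
    1 / (Nn p : ℂ) * (v 1 * conj (v 1) + v 2 * conj (v 2)) -
    (conj (p 1) * v 1 + conj (p 2) * v 2) * conj (conj (p 1) * v 1 + conj (p 2) * v 2) /
      (Nn p : ℂ) ^ 2 +
    Complex.I / 2 / (Nn p : ℂ) ^ 2 * (v 0 * conj (conj (p 1) * v 1 + conj (p 2) * v 2) -
      (conj (p 1) * v 1 + conj (p 2) * v 2) * conj (v 0)) := by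
  unfold hf Th
  simp only [Fin.sum_univ_three, Matrix.of_apply, Matrix.cons_val', Matrix.cons_val_zero,
    Matrix.cons_val_one, Matrix.cons_val, map_add, map_mul, Complex.conj_conj]
  ring

theorem hf_omC (p v : Cn 3) : hf (omC p) v =
    1 / (2 * ((p 0).im : ℂ) ^ 2) * (v 0 * conj (v 0)) := by
  unfold hf omC
  simp [Fin.sum_univ_three]
  ring

theorem unitary_eqs {W : Matrix (Fin 2) (Fin 2) ℂ} (hW : W ∈ Matrix.unitaryGroup (Fin 2) ℂ) :
    conj (W 0 0) * W 0 0 + conj (W 1 0) * W 1 0 = 1 ∧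
    conj (W 0 0) * W 0 1 + conj (W 1 0) * W 1 1 = 0 ∧
    conj (W 0 1) * W 0 0 + conj (W 1 1) * W 1 0 = 0 ∧
    conj (W 0 1) * W 0 1 + conj (W 1 1) * W 1 1 = 1 := by
  have h := Matrix.mem_unitaryGroup_iff'.1 hW
  have h00 := congrFun (congrFun h 0) 0
  have h01 := congrFun (congrFun h 0) 1
  have h10 := congrFun (congrFun h 1) 0
  have h11 := congrFun (congrFun h 1) 1
  simp [Matrix.mul_apply, Matrix.star_apply] at h00 h01 h10 h11
  exact ⟨h00, h01, h10, h11⟩

theorem inner_ru {W : Matrix (Fin 2) (Fin 2) ℂ} (hW : W ∈ Matrix.unitaryGroup (Fin 2) ℂ)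
    (p v : Cn 3) : conj (ru W p 1) * ru W v 1 + conj (ru W p 2) * ru W v 2 =
      conj (p 1) * v 1 + conj (p 2) * v 2 := by
  obtain ⟨h1, h2, h3, h4⟩ := unitary_eqs hW
  simp only [ru, Matrix.cons_val_one, Matrix.cons_val, map_add, map_mul]
  linear_combination conj (p 1) * v 1 * h1 + conj (p 1) * v 2 * h2 + conj (p 2) * v 1 * h3 +
    conj (p 2) * v 2 * h4

theorem nsq_eq (p : Cn 3) : (nsq p : ℂ) = conj (p 1) * p 1 + conj (p 2) * p 2 := by
  unfold nsq
  push_cast
  rw [← Complex.normSq_eq_conj_mul_self, ← Complex.normSq_eq_conj_mul_self]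

theorem nsq_ru {W : Matrix (Fin 2) (Fin 2) ℂ} (hW : W ∈ Matrix.unitaryGroup (Fin 2) ℂ)
    (p : Cn 3) : nsq (ru W p) = nsq p := by
  have h := inner_ru hW p p
  rw [← nsq_eq, ← nsq_eq] at h
  exact_mod_cast h

theorem Nn_ru {W : Matrix (Fin 2) (Fin 2) ℂ} (hW : W ∈ Matrix.unitaryGroup (Fin 2) ℂ)
    (p : Cn 3) : Nn (ru W p) = Nn p := by
  unfold Nn
  rw [nsq_ru hW]
  rfl

theorem ss_ru {W : Matrix (Fin 2) (Fin 2) ℂ} (hW : W ∈ Matrix.unitaryGroup (Fin 2) ℂ)
    (p : Cn 3) : ss (ru W p) = ss p := by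
  unfold ss
  rw [nsq_ru hW]
  rfl

theorem rotInv_Th' : RotInv Th := by
  intro W hW p _ v
  have h1 := inner_ru hW v v
  have h2 : ru W v 1 * conj (ru W v 1) + ru W v 2 * conj (ru W v 2) =
      v 1 * conj (v 1) + v 2 * conj (v 2) := by
    linear_combination h1
  rw [hf_Th, hf_Th, inner_ru hW, Nn_ru hW, h2]
  rfl

theorem rotInv_omC' : RotInv omC := by
  intro W hW p _ v
  rw [hf_omC, hf_omC]
  rfl

theorem hf_add {n : ℕ} (A B : Matrix (Fin n) (Fin n) ℂ) (v : Cn n) :
    hf (A + B) v = hf A v + hf B v := by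
  unfold hf
  simp only [Matrix.add_apply, add_mul, Finset.sum_add_distrib]

theorem hf_smul {n : ℕ} (c : ℂ) (A : Matrix (Fin n) (Fin n) ℂ) (v : Cn n) :
    hf (c • A) v = c * hf A v := by
  unfold hf
  simp only [Matrix.smul_apply, smul_eq_mul, Finset.mul_sum, mul_assoc]

theorem rotInv_g0 : RotInv g0 := by
  intro W hW p hp v
  unfold g0
  rw [hf_add, hf_add, hf_smul, hf_smul, rotInv_Th' W hW p hp, rotInv_omC' W hW p hp]

theorem rotInv_rho0 : RotInv rho0 := by
  intro W hW p hp v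
  unfold rho0
  rw [Pool.Agent.TH343.J117.hf_sub, Pool.Agent.TH343.J117.hf_sub, hf_smul, hf_smul, hf_smul,
    hf_smul, rotInv_Th' W hW p hp, rotInv_omC' W hW p hp]

/-- pull-back by a unitary rotation of the fibre preserves the class of forms. -/
theorem IsForm.rot {Γ : Subgroup SL(2, ℝ)} {a : Cn 3 → M3} {C : ℝ} (ha : IsForm Γ a C)
    {W : Matrix (Fin 2) (Fin 2) ℂ} (hW : W ∈ Matrix.unitaryGroup (Fin 2) ℂ) :
    IsForm Γ (rot W a) C where
  c1 := rot_c1 ha.c1 W
  herm := rot_herm ha.herm W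
  closed := rot_closed ha.c1 ha.closed W
  equi := rot_equi ha.equi W
  bdd := by
    intro p hp v
    rw [hf_rot, ← rotInv_g0 W hW p hp v]
    exact ha.bdd _ (ru_mem W hp) _

end Pool.Agent.TH152.KG
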