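import Pool.Agent.TH152.J120b

set_option autoImplicit false

open scoped Manifold ContDiff Topology ComplexConjugate MatrixGroups UpperHalfPlane Matrix
open MeasureTheory Set Filter

namespace Pool.Agent.TH152.KG

open Pool.Agent.TH598.KG
open Pool.Agent.TH343.J117 (hf_pull hf_ext)
open Pool.Agent.W549.CY (Cn dz dzbar HermitianMetric chernRicci chernScalar)
open Pool.Agent.W711.KC (jj nn jj_ne)

theorem RM_mul (V W : Matrix (Fin 2) (Fin 2) ℂ) : RM (V * W) = RM V * RM W := by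
  ext i j
  fin_cases i <;> fin_cases j <;>
    simp [RM, Matrix.mul_apply, Fin.sum_univ_two, Fin.sum_univ_three]

theorem ru_mul (V W : Matrix (Fin 2) (Fin 2) ℂ) (p : Cn 3) : ru (V * W) p = ru V (ru W p) := by
  rw [ru_eq, ru_eq, ru_eq, RM_mul, Matrix.mulVec_mulVec]

theorem rot_mul (V W : Matrix (Fin 2) (Fin 2) ℂ) (a : Cn 3 → M3) :
    rot (V * W) a = rot W (rot V a) := by
  funext p
  refine hf_ext fun v => ?_
  rw [hf_rot, hf_rot, hf_rot, ru_mul, ru_mul]

theorem mem_unitary_iff {W : Matrix (Fin 2) (Fin 2) ℂ} :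
    W ∈ Matrix.unitaryGroup (Fin 2) ℂ ↔
    conj (W 0 0) * W 0 0 + conj (W 1 0) * W 1 0 = 1 ∧
    conj (W 0 0) * W 0 1 + conj (W 1 0) * W 1 1 = 0 ∧
    conj (W 0 1) * W 0 0 + conj (W 1 1) * W 1 0 = 0 ∧
    conj (W 0 1) * W 0 1 + conj (W 1 1) * W 1 1 = 1 := by
  refine ⟨unitary_eqs, ?_⟩
  rintro ⟨h1, h2, h3, h4⟩
  rw [Matrix.mem_unitaryGroup_iff']
  ext i j
  fin_cases i <;> fin_cases j <;>
    simp [Matrix.mul_apply, Matrix.star_apply, h1, h2, h3, h4]

/-- a one parameter group of diagonal matrices -/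
noncomputable def dg (α β : ℝ) (t : ℝ) : Matrix (Fin 2) (Fin 2) ℂ :=
  !![Complex.exp (α * t * Complex.I), 0; 0, Complex.exp (β * t * Complex.I)]

/-- a one parameter group of rotations -/
noncomputable def rt (θ : ℝ) (t : ℝ) : Matrix (Fin 2) (Fin 2) ℂ :=
  !![(Real.cos (θ * t) : ℂ), -(Real.sin (θ * t) : ℂ); (Real.sin (θ * t) : ℂ), (Real.cos (θ * t) : ℂ)]

theorem conj_exp_mul (x : ℝ) : conj (Complex.exp (x * Complex.I)) * Complex.exp (x * Complex.I) = 1 := by
  rw [← Complex.exp_conj, ← Complex.exp_add]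
  simp

theorem dg_unitary (α β t : ℝ) : dg α β t ∈ Matrix.unitaryGroup (Fin 2) ℂ := by
  rw [mem_unitary_iff]
  have h1 := conj_exp_mul (α * t)
  have h2 := conj_exp_mul (β * t)
  push_cast at h1 h2
  simp only [dg, Matrix.of_apply, Matrix.cons_val', Matrix.cons_val_zero, Matrix.cons_val_one,
    Matrix.cons_val_fin_one, map_zero, mul_zero, zero_mul, add_zero, zero_add, true_and]
  exact ⟨h1, h2⟩

theorem rt_unitary (θ t : ℝ) : rt θ t ∈ Matrix.unitaryGroup (Fin 2) ℂ := by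
  rw [mem_unitary_iff]
  have h : ((Real.cos (θ * t) : ℂ)) ^ 2 + ((Real.sin (θ * t) : ℂ)) ^ 2 = 1 := by
    exact_mod_cast Real.cos_sq_add_sin_sq (θ * t)
  simp only [rt, Matrix.of_apply, Matrix.cons_val', Matrix.cons_val_zero, Matrix.cons_val_one,
    Matrix.cons_val_fin_one, map_neg, Complex.conj_ofReal]
  refine ⟨?_, ?_, ?_, ?_⟩
  · linear_combination h
  · ring
  · ring
  · linear_combination h

theorem exists_phase (z : ℂ) : ∃ θ : ℝ, z = Complex.exp (θ * Complex.I) * (‖z‖ : ℂ) := by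
  refine ⟨z.arg, ?_⟩
  rw [mul_comm]
  exact (Complex.norm_mul_exp_arg_mul_I z).symm

/-- the decomposition of a unitary matrix -/
theorem exists_decomp {W : Matrix (Fin 2) (Fin 2) ℂ} (hW : W ∈ Matrix.unitaryGroup (Fin 2) ℂ) :
    ∃ α β θ δ : ℝ, W = dg α β 1 * rt θ 1 * dg 0 δ 1 := by
  obtain ⟨h1, h2, h3, h4⟩ := unitary_eqs hW
  obtain ⟨α, hα⟩ := exists_phase (W 0 0)
  obtain ⟨β, hβ⟩ := exists_phase (W 1 0)
  have hn : ‖W 0 0‖ ^ 2 + ‖W 1 0‖ ^ 2 = 1 := by
    have : ((‖W 0 0‖ ^ 2 + ‖W 1 0‖ ^ 2 : ℝ) : ℂ) = 1 := by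
      push_cast
      rw [← Complex.conj_mul', ← Complex.conj_mul']
      exact h1
    exact_mod_cast this
  obtain ⟨θ, hc, hs⟩ : ∃ θ : ℝ, Real.cos θ = ‖W 0 0‖ ∧ Real.sin θ = ‖W 1 0‖ := by
    have hz : ‖(⟨‖W 0 0‖, ‖W 1 0‖⟩ : ℂ)‖ = 1 := by
      rw [Complex.norm_def, Complex.normSq_mk, ← sq, ← sq, hn, Real.sqrt_one]
    have hz0 : (⟨‖W 0 0‖, ‖W 1 0‖⟩ : ℂ) ≠ 0 := by
      intro h
      rw [h, norm_zero] at hz
      exact zero_ne_one hz
    refine ⟨Complex.arg ⟨‖W 0 0‖, ‖W 1 0‖⟩, ?_, ?_⟩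
    · rw [Complex.cos_arg hz0, hz, div_one]
    · rw [Complex.sin_arg, hz, div_one]
  set u1 := Complex.exp (α * Complex.I) with hu1
  set u2 := Complex.exp (β * Complex.I) with hu2
  have k1 : conj u1 * u1 = 1 := conj_exp_mul α
  have k2 : conj u2 * u2 = 1 := conj_exp_mul β
  set c : ℂ := (‖W 0 0‖ : ℂ) with hcdef
  set s : ℂ := (‖W 1 0‖ : ℂ) with hsdef
  have hcc : conj c = c := Complex.conj_ofReal _
  have hss : conj s = s := Complex.conj_ofReal _
  have hcs : c ^ 2 + s ^ 2 = 1 := by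
    rw [hcdef, hsdef]
    exact_mod_cast hn
  rw [hα, hβ] at h2
  simp only [map_mul, hcc, hss] at h2
  -- `h2 : conj u1 * c * W 0 1 + conj u2 * s * W 1 1 = 0`
  set v := conj u2 * c * W 1 1 - conj u1 * s * W 0 1 with hv
  have e11 : u2 * v * c = W 1 1 := by
    rw [hv]
    linear_combination (W 1 1 * c ^ 2 + s ^ 2 * W 1 1) * k2 - u2 * s * h2 + W 1 1 * hcs
  have e01 : -(u1 * v * s) = W 0 1 := by
    rw [hv]
    linear_combination (W 0 1 * c ^ 2 + s ^ 2 * W 0 1) * k1 - u1 * c * h2 + W 0 1 * hcs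
  have hvn : conj v * v = 1 := by
    rw [← e11, ← e01] at h4
    simp only [map_mul, map_neg, hcc, hss] at h4
    linear_combination h4 - conj v * v * c ^ 2 * k2 - conj v * v * s ^ 2 * k1 - conj v * v * hcs
  obtain ⟨δ, hδ⟩ := exists_phase v
  have hv1 : ‖v‖ = 1 := by
    have h := hvn
    rw [Complex.conj_mul'] at h
    have h' : ‖v‖ ^ 2 = 1 := by exact_mod_cast h
    nlinarith [norm_nonneg v]
  rw [hv1, Complex.ofReal_one, mul_one] at hδ
  refine ⟨α, β, θ, δ, ?_⟩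
  ext i j
  have hc' : (Real.cos θ : ℂ) = c := by rw [hc]
  have hs' : (Real.sin θ : ℂ) = s := by rw [hs]
  fin_cases i <;> fin_cases j
  · simp [dg, rt, Matrix.mul_apply, Fin.sum_univ_two, ← hu1]
    rw [← Complex.ofReal_cos, hc']
    exact hα
  · simp [dg, rt, Matrix.mul_apply, Fin.sum_univ_two, ← hu1, ← hδ]
    rw [← Complex.ofReal_sin, hs', ← e01]
    ring
  · simp [dg, rt, Matrix.mul_apply, Fin.sum_univ_two, ← hu2]
    rw [← Complex.ofReal_sin, hs']
    exact hβ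
  · simp [dg, rt, Matrix.mul_apply, Fin.sum_univ_two, ← hu2, ← hδ]
    rw [← Complex.ofReal_cos, hc', ← e11]
    ring

/-- Every unitary `2 × 2` matrix is a product of elements of the three one parameter groups, hence
`Phi` is invariant under all unitary rotations. -/
theorem phi_rot {Γ : Subgroup SL(2, ℝ)} {φ : ℂ → ℝ}
    (hflow : ∀ (a b : Cn 3 → M3) (Ca Cb : ℝ), IsForm Γ a Ca → IsForm Γ b Cb →
      ∀ (W : ℝ → Matrix (Fin 2) (Fin 2) ℂ) (X : Matrix (Fin 2) (Fin 2) ℂ),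
      (∀ t, W t ∈ Matrix.unitaryGroup (Fin 2) ℂ) →
      (∀ t, ∀ i j, HasDerivAt (fun t => W t i j) ((X * W t) i j) t) →
      (∀ t, X * W t = W t * X) → W 0 = 1 → Phi φ (rot (W 1) a) b = Phi φ a b)
    {a b : Cn 3 → M3} {Ca Cb : ℝ} (ha : IsForm Γ a Ca) (hb : IsForm Γ b Cb)
    {W : Matrix (Fin 2) (Fin 2) ℂ} (hW : W ∈ Matrix.unitaryGroup (Fin 2) ℂ) :
    Phi φ (rot W a) b = Phi φ a b := by
  have hdg : ∀ (α β : ℝ) (a : Cn 3 → M3), IsForm Γ a Ca →
      Phi φ (rot (dg α β 1) a) b = Phi φ a b := by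
    intro α β a ha
    refine hflow a b Ca Cb ha hb (dg α β) !![α * Complex.I, 0; 0, β * Complex.I]
      (dg_unitary α β) ?_ ?_ ?_
    · intro t i j
      have hexp : ∀ γ : ℝ, HasDerivAt (fun t : ℝ => Complex.exp (γ * t * Complex.I))
          (γ * Complex.I * Complex.exp (γ * t * Complex.I)) t := by
        intro γ
        have h1 : HasDerivAt (fun t : ℝ => (γ : ℂ) * (t : ℂ) * Complex.I) (γ * 1 * Complex.I) t :=
          ((Complex.ofRealCLM.hasDerivAt (x := t)).const_mul (γ : ℂ)).mul_const Complex.I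
        have h2 := h1.cexp
        refine h2.congr_deriv ?_
        ring
      fin_cases i <;> fin_cases j
      · simpa [dg, Matrix.mul_apply, Fin.sum_univ_two] using hexp α
      · simpa [dg, Matrix.mul_apply, Fin.sum_univ_two] using hasDerivAt_const t (0 : ℂ)
      · simpa [dg, Matrix.mul_apply, Fin.sum_univ_two] using hasDerivAt_const t (0 : ℂ)
      · simpa [dg, Matrix.mul_apply, Fin.sum_univ_two] using hexp β
    · intro t
      ext i j
      fin_cases i <;> fin_cases j <;> simp [dg, Matrix.mul_apply, Fin.sum_univ_two, mul_comm]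
    · ext i j
      fin_cases i <;> fin_cases j <;> simp [dg]
  have hrt : ∀ (θ : ℝ) (a : Cn 3 → M3), IsForm Γ a Ca →
      Phi φ (rot (rt θ 1) a) b = Phi φ a b := by
    intro θ a ha
    refine hflow a b Ca Cb ha hb (rt θ) !![0, -(θ : ℂ); (θ : ℂ), 0]
      (rt_unitary θ) ?_ ?_ ?_
    · intro t i j
      have hm : HasDerivAt (fun t : ℝ => θ * t) θ t := by
        simpa using (hasDerivAt_id t).const_mul θ
      have hcos : HasDerivAt (fun t : ℝ => ((Real.cos (θ * t) : ℝ) : ℂ))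
          ((-(Real.sin (θ * t)) * θ : ℝ) : ℂ) t :=
        (hm.cos).ofReal_comp
      have hsin : HasDerivAt (fun t : ℝ => ((Real.sin (θ * t) : ℝ) : ℂ))
          ((Real.cos (θ * t) * θ : ℝ) : ℂ) t :=
        (hm.sin).ofReal_comp
      have hf : ∀ i j, (fun t => rt θ t i j) = fun t : ℝ =>
        (!![(Real.cos (θ * t) : ℂ), -(Real.sin (θ * t) : ℂ); (Real.sin (θ * t) : ℂ),
          (Real.cos (θ * t) : ℂ)] : Matrix (Fin 2) (Fin 2) ℂ) i j := fun i j => rfl
      fin_cases i <;> fin_cases j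
      · refine (hcos.congr_deriv ?_)
        simp [rt, Matrix.mul_apply, Fin.sum_univ_two]
        ring
      · refine (hsin.neg.congr_deriv ?_)
        simp [rt, Matrix.mul_apply, Fin.sum_univ_two]
        ring
      · refine (hsin.congr_deriv ?_)
        simp [rt, Matrix.mul_apply, Fin.sum_univ_two]
        ring
      · refine (hcos.congr_deriv ?_)
        simp [rt, Matrix.mul_apply, Fin.sum_univ_two]
        ring
    · intro t
      ext i j
      fin_cases i <;> fin_cases j <;> simp [rt, Matrix.mul_apply, Fin.sum_univ_two, mul_comm]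
    · ext i j
      fin_cases i <;> fin_cases j <;> simp [rt]
  obtain ⟨α, β, θ, δ, rfl⟩ := exists_decomp hW
  have h1 : IsForm Γ (rot (dg α β 1) a) Ca := IsForm.rot ha (dg_unitary _ _ _)
  have h2 : IsForm Γ (rot (rt θ 1) (rot (dg α β 1) a)) Ca := IsForm.rot h1 (rt_unitary _ _)
  rw [rot_mul, rot_mul, hdg _ _ _ h2, hrt _ _ h1, hdg _ _ _ ha]

end Pool.Agent.TH152.KG
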