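import Pool.Agent.TH152.J120c

set_option autoImplicit false

open scoped Manifold ContDiff Topology ComplexConjugate MatrixGroups UpperHalfPlane Matrix
open MeasureTheory Set Filter

namespace Pool.Agent.TH152.KG

open Pool.Agent.TH598.KG
open Pool.Agent.TH343.J117 (hf_pull hf_ext)
open Pool.Agent.W549.CY (Cn dz dzbar HermitianMetric chernRicci chernScalar)
open Pool.Agent.W711.KC (jj nn jj_ne)

/-- the matrix of the vector field `(0, X u)` -/
noncomputable def XM (X : Matrix (Fin 2) (Fin 2) ℂ) : M3 :=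
  !![0, 0, 0; 0, X 0 0, X 0 1; 0, X 1 0, X 1 1]

/-- the vector field -/
noncomputable def xi (X : Matrix (Fin 2) (Fin 2) ℂ) (p : Cn 3) (l : Fin 3) : ℂ :=
  ∑ m, XM X l m * p m

/-- the contraction of the form with the vector field -/
noncomputable def eta (X : Matrix (Fin 2) (Fin 2) ℂ) (a : Cn 3 → M3) (k : Fin 3) (p : Cn 3) : ℂ :=
  ∑ l, xi X p l * a p l k

theorem real_expand (D : Cn 3 →L[ℝ] ℂ) (d : Cn 3) :
    D d = ∑ n, (((d n).re : ℂ) * D (Pi.single n 1) + ((d n).im : ℂ) * D (Pi.single n Complex.I)) := by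
  have e : d = ∑ n, ((d n).re • (Pi.single n 1 : Cn 3) +
      (d n).im • (Pi.single n Complex.I : Cn 3)) := by
    funext i
    rw [Finset.sum_apply, Finset.sum_eq_single i]
    · simp [Complex.re_add_im]
    · intro b _ hb
      simp [Pi.single_eq_of_ne (Ne.symm hb)]
    · intro h
      exact absurd (Finset.mem_univ i) h
  conv_lhs => rw [e]
  rw [map_sum]
  refine Finset.sum_congr rfl fun n _ => ?_
  rw [map_add, map_smul, map_smul, Complex.real_smul, Complex.real_smul]

theorem fderiv_expand (f : Cn 3 → ℂ) (p c : Cn 3) :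
    fderiv ℝ f p c = ∑ n, (c n * dz n f p + conj (c n) * dzbar n f p) := by
  rw [real_expand]
  refine Finset.sum_congr rfl fun n _ => ?_
  unfold dz dzbar
  have h1 : c n = ((c n).re : ℂ) + ((c n).im : ℂ) * Complex.I := (Complex.re_add_im _).symm
  have h2 : conj (c n) = ((c n).re : ℂ) - ((c n).im : ℂ) * Complex.I := by
    apply Complex.ext <;> simp
  rw [h2]
  conv_rhs => rw [h1]
  simp only [Complex.add_re, Complex.ofReal_re, Complex.mul_re, Complex.ofReal_im, Complex.I_re,
    Complex.I_im, Complex.add_im, Complex.mul_im, mul_zero, mul_one, sub_zero, add_zero,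
    zero_add]
  linear_combination (-((c n).im : ℂ) * fderiv ℝ f p (Pi.single n Complex.I)) * (-Complex.I_sq)

theorem dz_congr {i : Fin 3} {f g : Cn 3 → ℂ} {p : Cn 3} (h : f =ᶠ[𝓝 p] g) :
    dz i f p = dz i g p := by
  unfold dz
  rw [h.fderiv_eq]

theorem dzbar_congr {i : Fin 3} {f g : Cn 3 → ℂ} {p : Cn 3} (h : f =ᶠ[𝓝 p] g) :
    dzbar i f p = dzbar i g p := by
  unfold dzbar
  rw [h.fderiv_eq]

theorem conj_dz {i : Fin 3} {f : Cn 3 → ℂ} {p : Cn 3} (hf : DifferentiableAt ℝ f p) :
    conj (dz i f p) = dzbar i (fun q => conj (f q)) p := by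
  have h : ∀ v, fderiv ℝ (fun q => conj (f q)) p v = conj (fderiv ℝ f p v) := by
    intro v
    have h1 : HasFDerivAt (fun q => conj (f q))
        ((Complex.conjCLE : ℂ →L[ℝ] ℂ).comp (fderiv ℝ f p)) p :=
      (Complex.conjCLE : ℂ →L[ℝ] ℂ).hasFDerivAt.comp p hf.hasFDerivAt
    rw [h1.fderiv]
    rfl
  unfold dz dzbar
  rw [h, h]
  simp only [map_mul, map_sub, Complex.conj_I, map_div₀, map_one, map_ofNat]
  ring

theorem hasFDerivAt_xi (X : Matrix (Fin 2) (Fin 2) ℂ) (l : Fin 3) (p : Cn 3) :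
    HasFDerivAt (𝕜 := ℝ) (fun q => xi X q l)
      (∑ m, XM X l m • (ContinuousLinearMap.proj m : Cn 3 →L[ℝ] ℂ)) p := by
  unfold xi
  refine HasFDerivAt.fun_sum fun m _ => ?_
  exact (ContinuousLinearMap.proj (R := ℝ) (φ := fun _ : Fin 3 => ℂ) m).hasFDerivAt.const_mul
    (XM X l m)

theorem dz_xi (X : Matrix (Fin 2) (Fin 2) ℂ) (j l : Fin 3) (p : Cn 3) :
    dz j (fun q => xi X q l) p = XM X l j := by
  unfold dz
  rw [(hasFDerivAt_xi X l p).fderiv]
  simp only [sum_apply, smul_apply, ContinuousLinearMap.proj_apply, smul_eq_mul]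
  rw [Finset.sum_eq_single j, Finset.sum_eq_single j]
  · simp only [Pi.single_eq_same]
    linear_combination (-(1 / 2) * XM X l j) * Complex.I_sq
  · intro b _ hb
    rw [Pi.single_eq_of_ne hb, mul_zero]
  · intro h
    exact absurd (Finset.mem_univ j) h
  · intro b _ hb
    rw [Pi.single_eq_of_ne hb, mul_zero]
  · intro h
    exact absurd (Finset.mem_univ j) h

theorem diffAt {a : Cn 3 → M3} (hc : ∀ j k, ContDiffOn ℝ 1 (fun p => a p j k) UU) {p : Cn 3}
    (hp : p ∈ UU) (j k : Fin 3) : DifferentiableAt ℝ (fun p => a p j k) p :=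
  ((hc j k).differentiableOn one_ne_zero).differentiableAt (isOpen_UU.mem_nhds hp)

theorem dz_eta {a : Cn 3 → M3} (hc : ∀ j k, ContDiffOn ℝ 1 (fun p => a p j k) UU)
    (X : Matrix (Fin 2) (Fin 2) ℂ) {p : Cn 3} (hp : p ∈ UU) (j k : Fin 3) :
    dz j (eta X a k) p = ∑ l, (XM X l j * a p l k + xi X p l * dz j (fun q => a q l k) p) := by
  have h1 : ∀ l, DifferentiableAt ℝ (fun q => xi X q l) p := fun l =>
    (hasFDerivAt_xi X l p).differentiableAt
  have h2 := fun l => diffAt hc hp l k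
  have : eta X a k = fun q => ∑ l, xi X q l * a q l k := rfl
  rw [this, dz_sum]
  · refine Finset.sum_congr rfl fun l _ => ?_
    rw [dz_mul (h1 l) (h2 l), dz_xi]
  · intro l _
    exact (h1 l).mul (h2 l)

/-- the Lie derivative -/
theorem lie_formula {a : Cn 3 → M3} (hc : ∀ j k, ContDiffOn ℝ 1 (fun p => a p j k) UU)
    (hh : ∀ p ∈ UU, (a p).IsHermitian) (hcl : Closed a)
    (X : Matrix (Fin 2) (Fin 2) ℂ) {p : Cn 3} (hp : p ∈ UU) (j k : Fin 3) :
    dz j (eta X a k) p + conj (dz k (eta X a j) p) =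
      ∑ l, XM X l j * a p l k + fderiv ℝ (fun q => a q j k) p (xi X p) +
        ∑ m, a p j m * conj (XM X m k) := by
  have hherm : ∀ q ∈ UU, ∀ j k, conj (a q j k) = a q k j := by
    intro q hq j k
    exact congrFun (congrFun (hh q hq) k) j
  rw [dz_eta hc X hp, dz_eta hc X hp, fderiv_expand, map_sum]
  have e1 : ∀ l, conj (XM X l k * a p l j + xi X p l * dz k (fun q => a q l j) p) =
      a p j l * conj (XM X l k) + conj (xi X p l) * dzbar l (fun q => a q j k) p := by
    intro l
    rw [map_add, map_mul, map_mul, hherm p hp, hcl p hp k l j, conj_dz (diffAt hc hp k j)]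
    have : (fun q => conj (a q k j)) =ᶠ[𝓝 p] fun q => a q j k := by
      filter_upwards [isOpen_UU.mem_nhds hp] with q hq
      exact hherm q hq k j
    rw [dzbar_congr this]
    ring
  simp only [e1]
  have e2 : ∀ l, dz j (fun q => a q l k) p = dz l (fun q => a q j k) p := fun l => hcl p hp j l k
  simp only [e2, Finset.sum_add_distrib]
  ring

/-- the derivative of the pull-back at the identity -/
theorem hasDerivAt_rot_zero {a : Cn 3 → M3} (hc : ∀ j k, ContDiffOn ℝ 1 (fun p => a p j k) UU)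
    {V : ℝ → Matrix (Fin 2) (Fin 2) ℂ} {X : Matrix (Fin 2) (Fin 2) ℂ} {t : ℝ}
    (hV : ∀ i j, HasDerivAt (fun t => V t i j) (X i j) t) (h0 : V t = 1)
    {p : Cn 3} (hp : p ∈ UU) (j k : Fin 3) :
    HasDerivAt (fun h => rot (V h) a p j k)
      (∑ l, XM X l j * a p l k + fderiv ℝ (fun q => a q j k) p (xi X p) +
        ∑ m, a p j m * conj (XM X m k)) t := by
  have hRM : ∀ l j, HasDerivAt (fun h => RM (V h) l j) (XM X l j) t := by
    intro l j
    fin_cases l <;> fin_cases j
    · exact hasDerivAt_const t (1 : ℂ)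
    · exact hasDerivAt_const t (0 : ℂ)
    · exact hasDerivAt_const t (0 : ℂ)
    · exact hasDerivAt_const t (0 : ℂ)
    · exact hV 0 0
    · exact hV 0 1
    · exact hasDerivAt_const t (0 : ℂ)
    · exact hV 1 0
    · exact hV 1 1
  have hRM0 : RM (V t) = 1 := by
    rw [h0]
    ext i j
    fin_cases i <;> fin_cases j <;> simp [RM]
  have hru : HasDerivAt (fun h => ru (V h) p) (xi X p) t := by
    rw [hasDerivAt_pi]
    intro l
    simp only [ru_eq, Matrix.mulVec, dotProduct]
    unfold xi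
    exact HasDerivAt.fun_sum fun m _ => (hRM l m).mul_const (p m)
  have hru0 : ru (V t) p = p := by
    rw [ru_eq, hRM0, Matrix.one_mulVec]
  have ha : ∀ l m, HasDerivAt (fun h => a (ru (V h) p) l m)
      (fderiv ℝ (fun q => a q l m) p (xi X p)) t := by
    intro l m
    have h1 := (diffAt hc hp l m).hasFDerivAt
    exact HasFDerivAt.comp_hasDerivAt_of_eq (f := fun h => ru (V h) p) t h1 hru hru0.symm
  have hconj : ∀ m k, HasDerivAt (fun h => conj (RM (V h) m k)) (conj (XM X m k)) t := by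
    intro m k
    exact ((Complex.conjCLE : ℂ →L[ℝ] ℂ).hasFDerivAt (x := RM (V t) m k)).comp_hasDerivAt t
      (hRM m k)
  simp only [rot_apply]
  have hmain : HasDerivAt (fun h => ∑ m, (∑ l, RM (V h) l j * a (ru (V h) p) l m) *
      conj (RM (V h) m k))
      (∑ m, ((∑ l, (XM X l j * a (ru (V t) p) l m +
        RM (V t) l j * fderiv ℝ (fun q => a q l m) p (xi X p))) * conj (RM (V t) m k) +
        (∑ l, RM (V t) l j * a (ru (V t) p) l m) * conj (XM X m k))) t := by
    refine HasDerivAt.fun_sum fun m _ => ?_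
    exact (HasDerivAt.fun_sum fun l _ => (hRM l j).mul (ha l m)).mul (hconj m k)
  refine hmain.congr_deriv ?_
  rw [hRM0, hru0]
  simp only [Matrix.one_apply, ite_mul, one_mul, zero_mul, Finset.sum_add_distrib,
    Finset.sum_ite_eq', Finset.mem_univ, if_true, apply_ite (starRingEnd ℂ), map_one, map_zero,
    mul_ite, mul_one, mul_zero]

end Pool.Agent.TH152.KG
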