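import Pool.Agent.TH152.J120d

set_option autoImplicit false

open scoped Manifold ContDiff Topology ComplexConjugate MatrixGroups UpperHalfPlane Matrix
open MeasureTheory Set Filter

namespace Pool.Agent.TH152.KG

open Pool.Agent.TH598.KG
open Pool.Agent.TH343.J117 (hf_pull hf_ext)
open Pool.Agent.W549.CY (Cn dz dzbar HermitianMetric chernRicci chernScalar)
open Pool.Agent.W711.KC (jj nn jj_ne)

/-- the derivative of the pull-back, for the derivative `V'` of the matrix `V` -/
noncomputable def EE (V' V : Matrix (Fin 2) (Fin 2) ℂ) (a : Cn 3 → M3) (p : Cn 3) (j k : Fin 3) : ℂ :=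
  ∑ m, ((∑ l, (XM V' l j * a (ru V p) l m +
    RM V l j * fderiv ℝ (fun q => a q l m) (ru V p) (xi V' p))) * conj (RM V m k) +
    (∑ l, RM V l j * a (ru V p) l m) * conj (XM V' m k))

/-- the derivative of the pull-back -/
theorem hasDerivAt_rot_gen {a : Cn 3 → M3} (hc : ∀ j k, ContDiffOn ℝ 1 (fun p => a p j k) UU)
    {V : ℝ → Matrix (Fin 2) (Fin 2) ℂ} {V' : Matrix (Fin 2) (Fin 2) ℂ} {t : ℝ}
    (hV : ∀ i j, HasDerivAt (fun t => V t i j) (V' i j) t)
    {p : Cn 3} (hp : p ∈ UU) (j k : Fin 3) :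
    HasDerivAt (fun h => rot (V h) a p j k) (EE V' (V t) a p j k) t := by
  have hRM : ∀ l j, HasDerivAt (fun h => RM (V h) l j) (XM V' l j) t := by
    intro l j
    fin_cases l <;> fin_cases j
    · exact hasDerivAt_const t (1 : ℂ)
    · exact hasDerivAt_const t (0 : ℂ)
    · exact hasDerivAt_const t (0 : ℂ)
    · exact hasDerivAt_const t (0 : ℂ)
    · exact hV 0 0
    · exact hV 0 1
    · exact hasDerivAt_const t (0 : ℂ)
    · exact hV 1 0
    · exact hV 1 1
  have hru : HasDerivAt (fun h => ru (V h) p) (xi V' p) t := by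
    rw [hasDerivAt_pi]
    intro l
    simp only [ru_eq, Matrix.mulVec, dotProduct]
    unfold xi
    exact HasDerivAt.fun_sum fun m _ => (hRM l m).mul_const (p m)
  have ha : ∀ l m, HasDerivAt (fun h => a (ru (V h) p) l m)
      (fderiv ℝ (fun q => a q l m) (ru (V t) p) (xi V' p)) t := by
    intro l m
    have h1 := (diffAt hc (ru_mem (V t) hp) l m).hasFDerivAt
    exact HasFDerivAt.comp_hasDerivAt_of_eq (f := fun h => ru (V h) p) t h1 hru rfl
  have hconj : ∀ m k, HasDerivAt (fun h => conj (RM (V h) m k)) (conj (XM V' m k)) t := by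
    intro m k
    exact ((Complex.conjCLE : ℂ →L[ℝ] ℂ).hasFDerivAt (x := RM (V t) m k)).comp_hasDerivAt t
      (hRM m k)
  simp only [rot_apply]
  unfold EE
  refine HasDerivAt.fun_sum fun m _ => ?_
  exact (HasDerivAt.fun_sum fun l _ => (hRM l j).mul (ha l m)).mul (hconj m k)

theorem RM_one : RM 1 = 1 := by
  ext i j
  fin_cases i <;> fin_cases j <;> simp [RM]

theorem star_mul_self_of {W : Matrix (Fin 2) (Fin 2) ℂ} (hW : W ∈ Matrix.unitaryGroup (Fin 2) ℂ) :
    star W * W = 1 := Matrix.mem_unitaryGroup_iff'.1 hW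

theorem mul_star_self_of {W : Matrix (Fin 2) (Fin 2) ℂ} (hW : W ∈ Matrix.unitaryGroup (Fin 2) ℂ) :
    W * star W = 1 := Matrix.mem_unitaryGroup_iff.1 hW

/-- the derivative of the pull-back as a Lie derivative -/
theorem hasDerivAt_rot {Γ : Subgroup SL(2, ℝ)} {a : Cn 3 → M3} {C : ℝ} (ha : IsForm Γ a C)
    {W : ℝ → Matrix (Fin 2) (Fin 2) ℂ} {X : Matrix (Fin 2) (Fin 2) ℂ}
    (hW : ∀ t, W t ∈ Matrix.unitaryGroup (Fin 2) ℂ)
    (hWX : ∀ t, ∀ i j, HasDerivAt (fun t => W t i j) ((X * W t) i j) t)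
    (hXW : ∀ t, X * W t = W t * X) (t : ℝ) {p : Cn 3} (hp : p ∈ UU) (j k : Fin 3) :
    HasDerivAt (fun s => rot (W s) a p j k)
      (dz j (eta X (rot (W t) a) k) p + conj (dz k (eta X (rot (W t) a) j) p)) t := by
  have hF : IsForm Γ (rot (W t) a) C := IsForm.rot ha (hW t)
  rw [lie_formula hF.c1 hF.herm hF.closed X hp j k]
  have h1 : (fun s => rot (W s) a p j k) = fun s => rot (star (W t) * W s) (rot (W t) a) p j k := by
    funext s
    rw [← rot_mul, ← Matrix.mul_assoc, mul_star_self_of (hW t), Matrix.one_mul]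
  rw [h1]
  refine hasDerivAt_rot_zero hF.c1 ?_ (star_mul_self_of (hW t)) hp j k
  intro i l
  have h2 : X i l = ∑ m, star (W t) i m * (X * W t) m l := by
    rw [← Matrix.mul_apply, hXW t, ← Matrix.mul_assoc, star_mul_self_of (hW t), Matrix.one_mul]
  rw [h2]
  simp only [Matrix.mul_apply (M := star (W t))]
  exact HasDerivAt.fun_sum fun m _ => (hWX t m l).const_mul _

theorem EE_eq {Γ : Subgroup SL(2, ℝ)} {a : Cn 3 → M3} {C : ℝ} (ha : IsForm Γ a C)
    {W : ℝ → Matrix (Fin 2) (Fin 2) ℂ} {X : Matrix (Fin 2) (Fin 2) ℂ}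
    (hW : ∀ t, W t ∈ Matrix.unitaryGroup (Fin 2) ℂ)
    (hWX : ∀ t, ∀ i j, HasDerivAt (fun t => W t i j) ((X * W t) i j) t)
    (hXW : ∀ t, X * W t = W t * X) (t : ℝ) {p : Cn 3} (hp : p ∈ UU) (j k : Fin 3) :
    EE (X * W t) (W t) a p j k =
      dz j (eta X (rot (W t) a) k) p + conj (dz k (eta X (rot (W t) a) j) p) :=
  (hasDerivAt_rot_gen ha.c1 (hWX t) hp j k).unique (hasDerivAt_rot ha hW hWX hXW t hp j k)

/-! ### Joint continuity -/

theorem continuousOn_EE {a : Cn 3 → M3} (hc : ∀ j k, ContDiffOn ℝ 1 (fun p => a p j k) UU)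
    {W : ℝ → Matrix (Fin 2) (Fin 2) ℂ} (X : Matrix (Fin 2) (Fin 2) ℂ)
    (hWc : ∀ i j, Continuous fun t => W t i j) (j k : Fin 3) :
    ContinuousOn (fun x : ℝ × Cn 3 => EE (X * W x.1) (W x.1) a x.2 j k) (univ ×ˢ UU) := by
  have hRM : ∀ l j, Continuous fun x : ℝ × Cn 3 => RM (W x.1) l j := by
    intro l j
    fin_cases l <;> fin_cases j
    · exact continuous_const
    · exact continuous_const
    · exact continuous_const
    · exact continuous_const
    · exact (hWc 0 0).comp continuous_fst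
    · exact (hWc 0 1).comp continuous_fst
    · exact continuous_const
    · exact (hWc 1 0).comp continuous_fst
    · exact (hWc 1 1).comp continuous_fst
  have hXWc : ∀ i l, Continuous fun x : ℝ × Cn 3 => (X * W x.1) i l := by
    intro i l
    simp only [Matrix.mul_apply]
    exact continuous_finsetSum _ fun m _ => continuous_const.mul ((hWc m l).comp continuous_fst)
  have hXM : ∀ l j, Continuous fun x : ℝ × Cn 3 => XM (X * W x.1) l j := by
    intro l j
    fin_cases l <;> fin_cases j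
    · exact continuous_const
    · exact continuous_const
    · exact continuous_const
    · exact continuous_const
    · exact hXWc 0 0
    · exact hXWc 0 1
    · exact continuous_const
    · exact hXWc 1 0
    · exact hXWc 1 1
  have happ : ∀ m : Fin 3, Continuous fun x : ℝ × Cn 3 => x.2 m := fun m =>
    (continuous_apply m).comp continuous_snd
  have hru : Continuous fun x : ℝ × Cn 3 => ru (W x.1) x.2 := by
    rw [continuous_pi_iff]
    intro l
    simp only [ru_eq, Matrix.mulVec, dotProduct]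
    exact continuous_finsetSum _ fun m _ => (hRM l m).mul (happ m)
  have hxi : Continuous fun x : ℝ × Cn 3 => xi (X * W x.1) x.2 := by
    rw [continuous_pi_iff]
    intro l
    unfold xi
    exact continuous_finsetSum _ fun m _ => (hXM l m).mul (happ m)
  have hmaps : MapsTo (fun x : ℝ × Cn 3 => ru (W x.1) x.2) (univ ×ˢ UU) UU := fun x hx =>
    ru_mem _ hx.2
  have ha : ∀ l m, ContinuousOn (fun x : ℝ × Cn 3 => a (ru (W x.1) x.2) l m) (univ ×ˢ UU) :=
    fun l m => ((hc l m).continuousOn).comp hru.continuousOn hmaps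
  have hda : ∀ l m, ContinuousOn (fun x : ℝ × Cn 3 =>
      fderiv ℝ (fun q => a q l m) (ru (W x.1) x.2) (xi (X * W x.1) x.2)) (univ ×ˢ UU) := by
    intro l m
    have h1 : ContinuousOn (fun q => fderiv ℝ (fun q => a q l m) q) UU :=
      (hc l m).continuousOn_fderiv_of_isOpen isOpen_UU le_rfl
    exact (h1.comp hru.continuousOn hmaps).clm_apply hxi.continuousOn
  have hconj : Continuous (starRingEnd ℂ) := Complex.continuous_conj
  unfold EE
  refine continuousOn_finsetSum _ fun m _ => ContinuousOn.add (ContinuousOn.mul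
    (continuousOn_finsetSum _ fun l _ => ContinuousOn.add
      ((hXM l j).continuousOn.mul (ha l m)) ((hRM l j).continuousOn.mul (hda l m)))
    (hconj.comp (hRM m k)).continuousOn)
    (ContinuousOn.mul (continuousOn_finsetSum _ fun l _ => (hRM l j).continuousOn.mul (ha l m))
      (hconj.comp (hXM m k)).continuousOn)

theorem continuousOn_rot {a : Cn 3 → M3} (hc : ∀ j k, ContDiffOn ℝ 1 (fun p => a p j k) UU)
    (W : Matrix (Fin 2) (Fin 2) ℂ) (j k : Fin 3) :
    ContinuousOn (fun p => rot W a p j k) UU :=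
  (rot_c1 hc W j k).continuousOn

end Pool.Agent.TH152.KG
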