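import Pool.Agent.TH152.J120e

set_option autoImplicit false

open scoped Manifold ContDiff Topology ComplexConjugate MatrixGroups UpperHalfPlane Matrix
open MeasureTheory Set Filter

namespace Pool.Agent.TH152.KG

open Pool.Agent.TH598.KG
open Pool.Agent.TH343.J117 (hf_pull hf_ext)
open Pool.Agent.W549.CY (Cn dz dzbar HermitianMetric chernRicci chernScalar)
open Pool.Agent.W711.KC (jj nn jj_ne)

/-- the sesquilinear form -/
noncomputable def sesq (A : M3) (u v : Cn 3) : ℂ := ∑ j, ∑ k, A j k * u j * conj (v k)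

theorem hf_add_smul (A : M3) (u v : Cn 3) (c : ℂ) : hf A (u + c • v) =
    sesq A u u + conj c * sesq A u v + c * sesq A v u + c * conj c * sesq A v v := by
  unfold hf sesq
  simp only [Finset.mul_sum, ← Finset.sum_add_distrib]
  refine Finset.sum_congr rfl fun j _ => Finset.sum_congr rfl fun k _ => ?_
  simp only [Pi.add_apply, Pi.smul_apply, smul_eq_mul, map_add, map_mul]
  ring

theorem hf_eq_sesq (A : M3) (v : Cn 3) : hf A v = sesq A v v := rfl

theorem sesq_polar (A : M3) (u v : Cn 3) : 4 * sesq A u v =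
    hf A (u + (1 : ℂ) • v) - hf A (u + (-1 : ℂ) • v) + Complex.I * hf A (u + Complex.I • v) -
      Complex.I * hf A (u + (-Complex.I) • v) := by
  simp only [hf_add_smul, map_one, map_neg, Complex.conj_I]
  linear_combination (2 * (sesq A u v - sesq A v u)) * Complex.I_sq

theorem sesq_pull {A B : M3} (L : Cn 3 →ₗ[ℂ] Cn 3) (h : ∀ v, hf A v = hf B (L v)) (u v : Cn 3) :
    sesq A u v = sesq B (L u) (L v) := by
  have h4 : (4 : ℂ) ≠ 0 := by norm_num
  apply mul_left_cancel₀ h4
  rw [sesq_polar, sesq_polar, h, h, h, h]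
  simp only [map_add, map_smul]

theorem sum_eta (X : Matrix (Fin 2) (Fin 2) ℂ) (a : Cn 3 → M3) (p v : Cn 3) :
    ∑ k, eta X a k p * conj (v k) = sesq (a p) (xi X p) v := by
  unfold eta sesq
  simp only [Finset.sum_mul]
  rw [Finset.sum_comm]
  refine Finset.sum_congr rfl fun j _ => Finset.sum_congr rfl fun k _ => ?_
  ring

theorem xi_zero (X : Matrix (Fin 2) (Fin 2) ℂ) (p : Cn 3) : xi X p 0 = 0 := by
  simp [xi, XM, Fin.sum_univ_three]

theorem xi_one (X : Matrix (Fin 2) (Fin 2) ℂ) (p : Cn 3) : xi X p 1 = X 0 0 * p 1 + X 0 1 * p 2 := by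
  simp [xi, XM, Fin.sum_univ_three]

theorem xi_two (X : Matrix (Fin 2) (Fin 2) ℂ) (p : Cn 3) : xi X p 2 = X 1 0 * p 1 + X 1 1 * p 2 := by
  simp [xi, XM, Fin.sum_univ_three]

theorem xi_Fa (X : Matrix (Fin 2) (Fin 2) ℂ) (g : SL(2, ℝ)) {p : Cn 3} (hp : p ∈ UU) :
    xi X (Fa g p) = fderiv ℂ (Fa g) p (xi X p) := by
  have e1 : xi X (Fa g p) = (jj g (p 0))⁻¹ • xi X p := by
    funext l
    fin_cases l
    · simp [xi_zero]
    · simp [xi_one, Fa]
      ring
    · simp [xi_two, Fa]
      ring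
  have h1 : HasDerivAt (fun s : ℂ => Fa g (p + s • xi X p)) (fderiv ℂ (Fa g) p (xi X p)) 0 := by
    have hl : HasDerivAt (fun s : ℂ => p + s • xi X p) (xi X p) 0 := by
      simpa using ((hasDerivAt_id (0 : ℂ)).smul_const (xi X p)).const_add p
    exact HasFDerivAt.comp_hasDerivAt_of_eq (f := fun s : ℂ => p + s • xi X p) 0
      (differentiableAt_Fa g hp).hasFDerivAt hl (by simp)
  have h2 : (fun s : ℂ => Fa g (p + s • xi X p)) =
      fun s : ℂ => Fa g p + s • ((jj g (p 0))⁻¹ • xi X p) := by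
    funext s l
    have e0 : (p + s • xi X p) 0 = p 0 := by simp [xi_zero]
    fin_cases l
    · simp [Fa, xi_zero]
    · simp [Fa, xi_zero]
      ring
    · simp [Fa, xi_zero]
      ring
  rw [h2] at h1
  have h3 : HasDerivAt (fun s : ℂ => Fa g p + s • ((jj g (p 0))⁻¹ • xi X p))
      ((jj g (p 0))⁻¹ • xi X p) 0 := by
    simpa using ((hasDerivAt_id (0 : ℂ)).smul_const ((jj g (p 0))⁻¹ • xi X p)).const_add (Fa g p)
  rw [e1, h1.unique h3]

theorem equi01_eta {Γ : Subgroup SL(2, ℝ)} {a : Cn 3 → M3} (ha : Equi Γ a)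
    (X : Matrix (Fin 2) (Fin 2) ℂ) : Equi01 Γ (eta X a) := by
  intro g hg p hp v
  rw [sum_eta, sum_eta, xi_Fa X g hp]
  exact sesq_pull (fderiv ℂ (Fa g) p : Cn 3 →ₗ[ℂ] Cn 3) (fun v => ha g hg p hp v) _ _

theorem contDiffOn_eta {a : Cn 3 → M3} (hc : ∀ j k, ContDiffOn ℝ 1 (fun p => a p j k) UU)
    (X : Matrix (Fin 2) (Fin 2) ℂ) (k : Fin 3) : ContDiffOn ℝ 1 (eta X a k) UU := by
  have hxi : ∀ l, ContDiff ℝ 1 fun p => xi X p l := by
    intro l
    unfold xi
    exact ContDiff.sum fun m _ => contDiff_const.mul (contDiff_apply ℝ ℂ m)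
  exact ContDiffOn.sum fun l _ => (hxi l).contDiffOn.mul (hc l k)

/-! ### The bound -/

theorem sesq_smul_left (A : M3) (c : ℂ) (u v : Cn 3) : sesq A (c • u) v = c * sesq A u v := by
  unfold sesq
  simp only [Finset.mul_sum, Pi.smul_apply, smul_eq_mul]
  exact Finset.sum_congr rfl fun j _ => Finset.sum_congr rfl fun k _ => by ring

theorem sesq_smul_right (A : M3) (c : ℂ) (u v : Cn 3) :
    sesq A u (c • v) = conj c * sesq A u v := by
  unfold sesq
  simp only [Finset.mul_sum, Pi.smul_apply, smul_eq_mul, map_mul]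
  exact Finset.sum_congr rfl fun j _ => Finset.sum_congr rfl fun k _ => by ring

theorem sesq_conj {A : M3} (hA : A.IsHermitian) (u v : Cn 3) :
    sesq A v u = conj (sesq A u v) := by
  unfold sesq
  simp only [map_sum, map_mul, Complex.conj_conj]
  rw [Finset.sum_comm]
  refine Finset.sum_congr rfl fun j _ => Finset.sum_congr rfl fun k _ => ?_
  have : conj (A j k) = A k j := congrFun (congrFun hA k) j
  rw [this]
  ring

theorem re_hf_smul (A : M3) (c : ℂ) (v : Cn 3) :
    (hf A (c • v)).re = Complex.normSq c * (hf A v).re := by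
  rw [hf_eq_sesq, hf_eq_sesq, sesq_smul_left, sesq_smul_right, ← mul_assoc, Complex.mul_conj,
    Complex.re_ofReal_mul]

/-- Cauchy-Schwarz inequality for a form bounded by a nonnegative one. -/
theorem sesq_bound {A G : M3} {C : ℝ} (hA : A.IsHermitian) (hG : ∀ v, 0 ≤ (hf G v).re)
    (hC : 0 ≤ C) (h : ∀ v, |(hf A v).re| ≤ C * (hf G v).re) (u v : Cn 3) :
    ‖sesq A u v‖ ^ 2 ≤ C ^ 2 * (hf G u).re * (hf G v).re := by
  -- first step
  have h1 : ∀ u v, (sesq A u v).re ≤ C / 2 * ((hf G u).re + (hf G v).re) := by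
    intro u v
    have e1 : 4 * (sesq A u v).re =
        (hf A (u + (1 : ℂ) • v)).re - (hf A (u + (-1 : ℂ) • v)).re := by
      rw [hf_add_smul, hf_add_smul, sesq_conj hA u v]
      simp
      ring
    have e2 : (hf G (u + (1 : ℂ) • v)).re + (hf G (u + (-1 : ℂ) • v)).re =
        2 * ((hf G u).re + (hf G v).re) := by
      rw [hf_add_smul, hf_add_smul, hf_eq_sesq, hf_eq_sesq]
      simp
      ring
    have h2 := abs_le.1 (h (u + (1 : ℂ) • v))
    have h3 := abs_le.1 (h (u + (-1 : ℂ) • v))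
    nlinarith [h2.2, h3.1]
  have h2 : ∀ u v, ‖sesq A u v‖ ≤ C / 2 * ((hf G u).re + (hf G v).re) := by
    intro u v
    obtain ⟨θ, hθ⟩ := exists_phase (sesq A u v)
    have h3 := h1 u ((Complex.exp (θ * Complex.I)) • v)
    have h4 : sesq A u ((Complex.exp (θ * Complex.I)) • v) = (‖sesq A u v‖ : ℂ) := by
      rw [sesq_smul_right]
      conv_lhs => rw [hθ]
      rw [← mul_assoc, conj_exp_mul, one_mul]
    rw [h4, re_hf_smul, Complex.ofReal_re] at h3
    have h5 : Complex.normSq (Complex.exp (θ * Complex.I)) = 1 := by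
      rw [Complex.normSq_eq_norm_sq, Complex.norm_exp_ofReal_mul_I, one_pow]
    rwa [h5, one_mul] at h3
  have h3 : ∀ s : ℝ, 0 ≤ (C / 2 * (hf G u).re) * (s * s) + (-‖sesq A u v‖) * s +
      C / 2 * (hf G v).re := by
    intro s
    rcases le_total s 0 with hs | hs
    · have k1 := norm_nonneg (sesq A u v)
      have k2 : 0 ≤ C / 2 * (hf G u).re * (s * s) :=
        mul_nonneg (mul_nonneg (by linarith) (hG u)) (mul_self_nonneg s)
      have k3 : 0 ≤ C / 2 * (hf G v).re := mul_nonneg (by linarith) (hG v)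
      nlinarith
    · have h4 := h2 ((s : ℂ) • u) v
      rw [sesq_smul_left, re_hf_smul, norm_mul, Complex.norm_real, Real.norm_of_nonneg hs,
        Complex.normSq_ofReal] at h4
      nlinarith
  have h4 := discrim_le_zero h3
  unfold discrim at h4
  nlinarith [h4]

theorem normSq_add_le (a b x y : ℂ) : Complex.normSq (a * x + b * y) ≤
    (Complex.normSq a + Complex.normSq b) * (Complex.normSq x + Complex.normSq y) := by
  have h : Complex.normSq (a * x + b * y) + Complex.normSq (a * conj y - b * conj x) =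
      (Complex.normSq a + Complex.normSq b) * (Complex.normSq x + Complex.normSq y) := by
    simp only [Complex.normSq_apply, Complex.add_re, Complex.add_im, Complex.mul_re,
      Complex.mul_im, Complex.sub_re, Complex.sub_im, Complex.conj_re, Complex.conj_im]
    ring
  have := Complex.normSq_nonneg (a * conj y - b * conj x)
  linarith

/-- the constant -/
noncomputable def MX (X : Matrix (Fin 2) (Fin 2) ℂ) : ℝ :=
  Complex.normSq (X 0 0) + Complex.normSq (X 0 1) + Complex.normSq (X 1 0) + Complex.normSq (X 1 1)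

theorem MX_nonneg (X : Matrix (Fin 2) (Fin 2) ℂ) : 0 ≤ MX X := by
  have h1 := Complex.normSq_nonneg (X 0 0)
  have h2 := Complex.normSq_nonneg (X 0 1)
  have h3 := Complex.normSq_nonneg (X 1 0)
  have h4 := Complex.normSq_nonneg (X 1 1)
  unfold MX
  linarith

theorem Nn_pos' {p : Cn 3} (hp : p ∈ UU) : 0 < Nn p := by
  have h1 : 0 < (p 0).im := hp
  have h2 := Complex.normSq_nonneg (p 1)
  have h3 := Complex.normSq_nonneg (p 2)
  unfold Nn nsq
  linarith

theorem g0_xi_le (X : Matrix (Fin 2) (Fin 2) ℂ) {p : Cn 3} (hp : p ∈ UU) :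
    (hf (g0 p) (xi X p)).re ≤ MX X := by
  have hN := Nn_pos' hp
  have hy : 0 < (p 0).im := hp
  have e : hf (g0 p) (xi X p) = (((Complex.normSq (xi X p 1) + Complex.normSq (xi X p 2)) / Nn p -
      Complex.normSq (conj (p 1) * xi X p 1 + conj (p 2) * xi X p 2) / Nn p ^ 2 : ℝ) : ℂ) := by
    unfold g0
    rw [hf_add, hf_smul, hf_omC, hf_Th, xi_zero]
    push_cast
    rw [← Complex.mul_conj, ← Complex.mul_conj, ← Complex.mul_conj]
    simp only [map_zero, mul_zero, zero_mul, sub_zero, add_zero, zero_add]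
    ring
  rw [e, Complex.ofReal_re]
  have h1 : Complex.normSq (xi X p 1) ≤
      (Complex.normSq (X 0 0) + Complex.normSq (X 0 1)) * nsq p := by
    rw [xi_one]
    exact normSq_add_le _ _ _ _
  have h2 : Complex.normSq (xi X p 2) ≤
      (Complex.normSq (X 1 0) + Complex.normSq (X 1 1)) * nsq p := by
    rw [xi_two]
    exact normSq_add_le _ _ _ _
  have h3 : 0 ≤ Complex.normSq (conj (p 1) * xi X p 1 + conj (p 2) * xi X p 2) / Nn p ^ 2 :=
    div_nonneg (Complex.normSq_nonneg _) (sq_nonneg _)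
  have h4 : nsq p ≤ Nn p := by
    unfold Nn
    linarith
  have h5 : (Complex.normSq (xi X p 1) + Complex.normSq (xi X p 2)) / Nn p ≤ MX X := by
    rw [div_le_iff₀ hN]
    have h6 := mul_le_mul_of_nonneg_left h4 (MX_nonneg X)
    have h7 : Complex.normSq (xi X p 1) + Complex.normSq (xi X p 2) ≤ MX X * nsq p := by
      unfold MX
      nlinarith
    linarith
  linarith

theorem eta_bound {Γ : Subgroup SL(2, ℝ)} {a : Cn 3 → M3} {C : ℝ} (ha : IsForm Γ a C)
    (hC : 0 ≤ C) (hg0 : ∀ p ∈ UU, ∀ v, 0 ≤ (hf (g0 p) v).re)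
    (X : Matrix (Fin 2) (Fin 2) ℂ) {p : Cn 3} (hp : p ∈ UU) (v : Cn 3) :
    ‖∑ k, eta X a k p * conj (v k)‖ ^ 2 ≤ (C * √(MX X)) ^ 2 * (hf (g0 p) v).re := by
  rw [sum_eta]
  refine (sesq_bound (ha.herm p hp) (hg0 p hp) hC (ha.bdd p hp) _ _).trans ?_
  rw [mul_pow, Real.sq_sqrt (MX_nonneg X)]
  have h1 := g0_xi_le X hp
  have h2 := hg0 p hp v
  have h3 := mul_le_mul_of_nonneg_left h1 (sq_nonneg C)
  exact mul_le_mul_of_nonneg_right h3 h2

end Pool.Agent.TH152.KG
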