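import Pool.Agent.TH152.J120f

set_option autoImplicit false

open scoped Manifold ContDiff Topology ComplexConjugate MatrixGroups UpperHalfPlane Matrix
open MeasureTheory Set Filter

namespace Pool.Agent.TH152.KG

open Pool.Agent.TH598.KG
open Pool.Agent.TH343.J117 (hf_pull hf_ext)
open Pool.Agent.W549.CY (Cn dz dzbar HermitianMetric chernRicci chernScalar)
open Pool.Agent.W711.KC (jj nn jj_ne)

/-! ### The cutoff function -/

theorem chi_zero {x : ℝ} (hx : 2 ≤ x) : chi x = 0 :=
  Real.smoothTransition.zero_of_nonpos (by linarith)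

theorem chi_one {x : ℝ} (hx : x ≤ 1) : chi x = 1 :=
  Real.smoothTransition.one_of_one_le (by linarith)

theorem chi_nonneg (x : ℝ) : 0 ≤ chi x := Real.smoothTransition.nonneg _

theorem chi_le_one (x : ℝ) : chi x ≤ 1 := Real.smoothTransition.le_one _

theorem continuous_chi : Continuous chi :=
  Real.smoothTransition.continuous.comp (continuous_const.sub continuous_id)

theorem continuous_nsq : Continuous nsq :=
  (Complex.continuous_normSq.comp (continuous_apply 1)).add
    (Complex.continuous_normSq.comp (continuous_apply 2))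

theorem continuous_im0 : Continuous fun p : Cn 3 => (p 0).im :=
  Complex.continuous_im.comp (continuous_apply 0)

theorem continuousOn_ss : ContinuousOn ss UU := by
  unfold ss
  exact continuous_nsq.continuousOn.div continuous_im0.continuousOn fun p hp => ne_of_gt hp

theorem measurableSet_UU : MeasurableSet UU := isOpen_UU.measurableSet

/-- the compact set -/
def KR (φ : ℂ → ℝ) (R : ℝ) : Set (Cn 3) := {p | p 0 ∈ tsupport φ ∧ nsq p ≤ 2 * R * (p 0).im}

theorem KR_subset {φ : ℂ → ℝ} (hs : tsupport φ ⊆ {z | 0 < z.im}) (R : ℝ) : KR φ R ⊆ UU :=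
  fun _ hp => hs hp.1

theorem isCompact_KR {φ : ℂ → ℝ} (hc : HasCompactSupport φ) {R : ℝ} (hR : 0 ≤ R) :
    IsCompact (KR φ R) := by
  refine Metric.isCompact_of_isClosed_isBounded ?_ ?_
  · have h1 : IsClosed {p : Cn 3 | p 0 ∈ tsupport φ} :=
      (isClosed_tsupport φ).preimage (continuous_apply 0)
    have h2 : IsClosed {p : Cn 3 | nsq p ≤ 2 * R * (p 0).im} :=
      isClosed_le continuous_nsq (continuous_const.mul continuous_im0)
    exact h1.inter h2
  · obtain ⟨M, hM⟩ := (IsCompact.isBounded hc).exists_norm_le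
    refine (Metric.isBounded_closedBall (x := (0 : Cn 3)) (r := |M| + 2 * R * |M| + 1)).subset ?_
    intro p hp
    have h1 : ‖p 0‖ ≤ |M| := (hM _ hp.1).trans (le_abs_self M)
    have h2 : (p 0).im ≤ |M| := ((le_abs_self _).trans (Complex.abs_im_le_norm _)).trans h1
    have h3 : nsq p ≤ 2 * R * |M| := hp.2.trans (mul_le_mul_of_nonneg_left h2 (by linarith))
    have hM0 := abs_nonneg M
    have hRM : 0 ≤ 2 * R * |M| := by positivity
    have h4 : ∀ i : Fin 3, i ≠ 0 → ‖p i‖ ^ 2 ≤ 2 * R * |M| := by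
      intro i hi
      have a1 := Complex.normSq_nonneg (p 1)
      have a2 := Complex.normSq_nonneg (p 2)
      unfold nsq at h3
      rw [← Complex.normSq_eq_norm_sq]
      fin_cases i
      · exact absurd rfl hi
      · show Complex.normSq (p 1) ≤ _
        linarith
      · show Complex.normSq (p 2) ≤ _
        linarith
    rw [mem_closedBall_zero_iff, pi_norm_le_iff_of_nonneg (by linarith)]
    intro i
    by_cases hi : i = 0
    · rw [hi]
      linarith
    · have := h4 i hi
      nlinarith [norm_nonneg (p i)]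

theorem cut_zero {φ : ℂ → ℝ} {R : ℝ} (hR : 0 < R) {p : Cn 3} (hp : p ∈ UU \ KR φ R) (G : ℂ) :
    (φ (p 0) : ℂ) * ((chi (ss p / R) : ℂ) * G) = 0 := by
  obtain ⟨hpU, hpK⟩ := hp
  have hy : 0 < (p 0).im := hpU
  by_cases h : p 0 ∈ tsupport φ
  · have h1 : ¬ nsq p ≤ 2 * R * (p 0).im := fun h2 => hpK ⟨h, h2⟩
    have h2 : 2 ≤ ss p / R := by
      rw [le_div_iff₀ hR]
      unfold ss
      rw [le_div_iff₀ hy]
      linarith [not_le.1 h1]
    rw [chi_zero h2]
    simp
  · rw [image_eq_zero_of_notMem_tsupport h]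
    simp

theorem integrableOn_cut {φ : ℂ → ℝ} (hφ : Continuous φ) (hc : HasCompactSupport φ)
    (hs : tsupport φ ⊆ {z | 0 < z.im}) {R : ℝ} (hR : 0 < R) {G : Cn 3 → ℂ}
    (hG : ContinuousOn G UU) :
    IntegrableOn (fun p => (φ (p 0) : ℂ) * ((chi (ss p / R) : ℂ) * G p)) UU := by
  have h1 : ContinuousOn (fun p : Cn 3 => (φ (p 0) : ℂ) * ((chi (ss p / R) : ℂ) * G p)) (KR φ R) := by
    have k1 : Continuous fun p : Cn 3 => (φ (p 0) : ℂ) :=
      Complex.continuous_ofReal.comp (hφ.comp (continuous_apply 0))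
    have k2 : ContinuousOn (fun p : Cn 3 => (chi (ss p / R) : ℂ)) (KR φ R) :=
      Complex.continuous_ofReal.comp_continuousOn (continuous_chi.comp_continuousOn
        ((continuousOn_ss.mono (KR_subset hs R)).div_const R))
    exact k1.continuousOn.mul (k2.mul (hG.mono (KR_subset hs R)))
  have h2 := h1.integrableOn_compact (μ := volume) (isCompact_KR hc hR.le)
  exact h2.of_forall_sdiff_eq_zero measurableSet_UU fun p hp => cut_zero hR hp (G p)

theorem hasDerivAt_cut {φ : ℂ → ℝ} (hφ : Continuous φ) (hc : HasCompactSupport φ)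
    (hs : tsupport φ ⊆ {z | 0 < z.im}) {R : ℝ} (hR : 0 < R) {G G' : ℝ → Cn 3 → ℂ}
    (hG : ∀ t, ContinuousOn (G t) UU)
    (hG' : ContinuousOn (fun x : ℝ × Cn 3 => G' x.1 x.2) (univ ×ˢ UU))
    (hd : ∀ t, ∀ p ∈ UU, HasDerivAt (fun s => G s p) (G' t p) t) (t : ℝ) :
    HasDerivAt (fun s => ∫ p in UU, (φ (p 0) : ℂ) * ((chi (ss p / R) : ℂ) * G s p))
      (∫ p in UU, (φ (p 0) : ℂ) * ((chi (ss p / R) : ℂ) * G' t p)) t := by
  have hKc := isCompact_KR (φ := φ) hc hR.le
  have hG't : ∀ t, ContinuousOn (G' t) UU := by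
    intro t
    have h := hG'.comp (f := fun p : Cn 3 => (t, p)) (s := UU)
      (continuous_const.prodMk continuous_id).continuousOn fun p hp => ⟨mem_univ _, hp⟩
    exact h
  have hcont : ContinuousOn (fun x : ℝ × Cn 3 => (φ (x.2 0) : ℂ) *
      ((chi (ss x.2 / R) : ℂ) * G' x.1 x.2)) (Metric.closedBall t 1 ×ˢ KR φ R) := by
    have k1 : Continuous fun x : ℝ × Cn 3 => (φ (x.2 0) : ℂ) :=
      Complex.continuous_ofReal.comp (hφ.comp ((continuous_apply 0).comp continuous_snd))
    have k2 : ContinuousOn (fun x : ℝ × Cn 3 => (chi (ss x.2 / R) : ℂ))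
        (Metric.closedBall t 1 ×ˢ KR φ R) :=
      Complex.continuous_ofReal.comp_continuousOn (continuous_chi.comp_continuousOn
        (ContinuousOn.div_const (continuousOn_ss.comp continuous_snd.continuousOn
          fun x hx => KR_subset hs R hx.2) R))
    exact k1.continuousOn.mul (k2.mul (hG'.mono fun x hx => ⟨mem_univ _, KR_subset hs R hx.2⟩))
  obtain ⟨C, hC⟩ := ((isCompact_closedBall t 1).prod hKc).exists_bound_of_continuousOn hcont
  have hbound : Integrable (indicator (KR φ R) fun _ => |C|) (volume.restrict UU) := by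
    have h1 : IntegrableOn (fun _ : Cn 3 => |C|) (KR φ R) volume :=
      integrableOn_const (hs := hKc.measure_lt_top.ne)
    exact (integrable_indicator_iff hKc.measurableSet |>.2 h1).integrableOn
  refine (hasDerivAt_integral_of_dominated_loc_of_deriv_le (μ := volume.restrict UU)
    (F := fun s p => (φ (p 0) : ℂ) * ((chi (ss p / R) : ℂ) * G s p))
    (F' := fun s p => (φ (p 0) : ℂ) * ((chi (ss p / R) : ℂ) * G' s p))
    (bound := indicator (KR φ R) fun _ => |C|) (Metric.ball_mem_nhds t one_pos) ?_ ?_ ?_ ?_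
    hbound ?_).2
  · exact Eventually.of_forall fun s =>
      (integrableOn_cut hφ hc hs hR (hG s)).aestronglyMeasurable
  · exact integrableOn_cut hφ hc hs hR (hG t)
  · exact (integrableOn_cut hφ hc hs hR (hG't t)).aestronglyMeasurable
  · refine (ae_restrict_iff' measurableSet_UU).2 (Eventually.of_forall fun p hp x hx => ?_)
    by_cases hK : p ∈ KR φ R
    · rw [indicator_of_mem hK]
      exact (hC (x, p) ⟨Metric.ball_subset_closedBall hx, hK⟩).trans (le_abs_self C)
    · rw [indicator_of_notMem hK, cut_zero hR ⟨hp, hK⟩, norm_zero]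
  · refine (ae_restrict_iff' measurableSet_UU).2 (Eventually.of_forall fun p hp x _ => ?_)
    exact ((hd x p hp).const_mul _).const_mul _

end Pool.Agent.TH152.KG
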