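import Pool.Agent.TH152.J120g

set_option autoImplicit false

open scoped Manifold ContDiff Topology ComplexConjugate MatrixGroups UpperHalfPlane Matrix
open MeasureTheory Set Filter

namespace Pool.Agent.TH152.KG

open Pool.Agent.TH598.KG
open Pool.Agent.TH343.J117 (hf_pull hf_ext DD_apply DD_symm DD_conj DD_add_left DD_bound)
open Pool.Agent.W549.CY (Cn dz dzbar HermitianMetric chernRicci chernScalar)
open Pool.Agent.W711.KC (jj nn jj_ne)

/-- the weight is integrable -/
theorem integrable_weight {f : ℂ → ℝ} (hf : Integrable f) :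
    Integrable (fun p : Cn 3 => f (p 0) *
      ((1 : ℝ) + ‖fun j : Fin 2 => p (Fin.succAbove 0 j)‖ ^ 2) ^ (-(6 : ℝ) / 2)) := by
  have hg : Integrable (fun u : Fin 2 → ℂ => ((1 : ℝ) + ‖u‖ ^ 2) ^ (-(6 : ℝ) / 2)) := by
    apply integrable_rpow_neg_one_add_norm_sq
    rw [Module.finrank_pi_fintype]
    simp [Complex.finrank_real_complex]
    norm_num
  have h := (volume_preserving_piFinSuccAbove (fun _ : Fin 3 => ℂ) 0).integrable_comp_emb
    (MeasurableEquiv.measurableEmbedding _) (g := fun z : ℂ × (Fin 2 → ℂ) =>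
      f z.1 * ((1 : ℝ) + ‖z.2‖ ^ 2) ^ (-(6 : ℝ) / 2))
  exact h.2 (hf.mul_prod hg)

theorem sq_norm_le_nsq (p : Cn 3) : ‖fun j : Fin 2 => p (Fin.succAbove 0 j)‖ ^ 2 ≤ nsq p := by
  have h0 : 0 ≤ nsq p := add_nonneg (Complex.normSq_nonneg _) (Complex.normSq_nonneg _)
  have h : ‖fun j : Fin 2 => p (Fin.succAbove 0 j)‖ ≤ √(nsq p) := by
    rw [pi_norm_le_iff_of_nonneg (Real.sqrt_nonneg _)]
    intro j
    apply Real.le_sqrt_of_sq_le
    have a1 := Complex.normSq_nonneg (p 1)
    have a2 := Complex.normSq_nonneg (p 2)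
    rw [← Complex.normSq_eq_norm_sq]
    unfold nsq
    fin_cases j
    · show Complex.normSq (p 1) ≤ _
      linarith
    · show Complex.normSq (p 2) ≤ _
      linarith
  calc _ ≤ √(nsq p) ^ 2 := pow_le_pow_left₀ (norm_nonneg _) h 2
    _ = nsq p := Real.sq_sqrt h0

theorem rpow_three {x : ℝ} (hx : 0 ≤ x) : x ^ (-(6 : ℝ) / 2) = (x ^ 3)⁻¹ := by
  rw [show (-(6 : ℝ) / 2) = -((3 : ℕ) : ℝ) by norm_num, Real.rpow_neg hx, Real.rpow_natCast]

/-- a function bounded by `1 / (y N³)` is integrable against `φ` -/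
theorem integrableOn_of_bound {φ : ℂ → ℝ} (hφ : Continuous φ) (hc : HasCompactSupport φ)
    (hs : tsupport φ ⊆ {z | 0 < z.im}) {G : Cn 3 → ℂ} (hG : ContinuousOn G UU) {C : ℝ}
    (hGb : ∀ p ∈ UU, ‖G p‖ ≤ C / ((p 0).im * Nn p ^ 3)) :
    IntegrableOn (fun p => (φ (p 0) : ℂ) * G p) UU := by
  obtain ⟨δ, hδ, hδφ⟩ : ∃ δ : ℝ, 0 < δ ∧ ∀ z ∈ tsupport φ, δ ≤ z.im := by
    rcases (tsupport φ).eq_empty_or_nonempty with h | h
    · exact ⟨1, one_pos, fun z hz => by rw [h] at hz; exact absurd hz (notMem_empty z)⟩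
    · obtain ⟨z, hz, hmin⟩ := (show IsCompact (tsupport φ) from hc).exists_isMinOn h
        Complex.continuous_im.continuousOn
      exact ⟨z.im, hs hz, fun w hw => hmin hw⟩
  set m := min δ 1 with hm
  have hm0 : 0 < m := lt_min hδ one_pos
  have hmδ : m ≤ δ := min_le_left _ _
  have hm1 : m ≤ 1 := min_le_right _ _
  have hw := (integrable_weight (hφ.abs.integrable_of_hasCompactSupport hc.abs)).const_mul
    (|C| * (m * m ^ 3)⁻¹)
  refine Integrable.mono' hw.integrableOn ?_ ?_
  · have k1 : Continuous fun p : Cn 3 => (φ (p 0) : ℂ) :=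
      Complex.continuous_ofReal.comp (hφ.comp (continuous_apply 0))
    exact (k1.continuousOn.mul hG).aestronglyMeasurable measurableSet_UU
  · refine (ae_restrict_iff' measurableSet_UU).2 (Eventually.of_forall fun p hp => ?_)
    rw [norm_mul, Complex.norm_real, Real.norm_eq_abs]
    by_cases h : p 0 ∈ tsupport φ
    · have hy : δ ≤ (p 0).im := hδφ _ h
      have hn := sq_norm_le_nsq p
      set u := ‖fun j : Fin 2 => p (Fin.succAbove 0 j)‖ ^ 2 with hu
      have hu0 : 0 ≤ u := sq_nonneg _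
      have h1 : m * (1 + u) ≤ Nn p := by
        unfold Nn
        nlinarith
      have hmu : 0 < m * (1 + u) := mul_pos hm0 (by linarith)
      have h2 : m * (m * (1 + u)) ^ 3 ≤ (p 0).im * Nn p ^ 3 :=
        mul_le_mul (hmδ.trans hy) (pow_le_pow_left₀ hmu.le h1 3) (by positivity)
          (by linarith)
      have h3 : ‖G p‖ ≤ |C| * (m * m ^ 3)⁻¹ * (1 + u) ^ (-(6 : ℝ) / 2) := by
        rw [rpow_three (by linarith)]
        calc ‖G p‖ ≤ C / ((p 0).im * Nn p ^ 3) := hGb p hp
          _ ≤ |C| / ((p 0).im * Nn p ^ 3) := by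
              apply div_le_div_of_nonneg_right (le_abs_self C)
              exact (by positivity : 0 < m * (m * (1 + u)) ^ 3).le.trans h2
          _ ≤ |C| / (m * (m * (1 + u)) ^ 3) :=
              div_le_div_of_nonneg_left (abs_nonneg C) (by positivity) h2
          _ = _ := by
              rw [mul_pow, ← mul_assoc, div_eq_mul_inv, mul_inv, mul_assoc]
      calc |φ (p 0)| * ‖G p‖ ≤ |φ (p 0)| * (|C| * (m * m ^ 3)⁻¹ * (1 + u) ^ (-(6 : ℝ) / 2)) :=
            mul_le_mul_of_nonneg_left h3 (abs_nonneg _)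
        _ = _ := by ring
    · rw [image_eq_zero_of_notMem_tsupport h]
      simp

/-- entries of the polarised adjugate of continuous families are continuous -/
theorem continuousOn_padj {a b : Cn 3 → M3} {s : Set (Cn 3)}
    (ha : ∀ j k, ContinuousOn (fun p => a p j k) s) (hb : ∀ j k, ContinuousOn (fun p => b p j k) s)
    (j k : Fin 3) : ContinuousOn (fun p => padj (a p) (b p) j k) s := by
  have : (fun p => padj (a p) (b p) j k) = fun p =>
    (a p (k + 1) (j + 1) * b p (k + 2) (j + 2) + b p (k + 1) (j + 1) * a p (k + 2) (j + 2)) -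
    (a p (k + 1) (j + 2) * b p (k + 2) (j + 1) + b p (k + 1) (j + 2) * a p (k + 2) (j + 1)) := by
    funext p
    exact padj_apply _ _ _ _
  rw [this]
  exact (((ha _ _).mul (hb _ _)).add ((hb _ _).mul (ha _ _))).sub
    (((ha _ _).mul (hb _ _)).add ((hb _ _).mul (ha _ _)))

theorem continuousOn_DD {x a b : Cn 3 → M3} {s : Set (Cn 3)}
    (hx : ∀ j k, ContinuousOn (fun p => x p j k) s) (ha : ∀ j k, ContinuousOn (fun p => a p j k) s)
    (hb : ∀ j k, ContinuousOn (fun p => b p j k) s) :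
    ContinuousOn (fun p => DD (x p) (a p) (b p)) s := by
  simp only [DD_apply]
  exact continuousOn_finsetSum _ fun i _ => continuousOn_finsetSum _ fun j _ =>
    (hx i j).mul (continuousOn_padj ha hb j i)

end Pool.Agent.TH152.KG
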