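import Pool.Agent.TH152.J120h

set_option autoImplicit false

open scoped Manifold ContDiff Topology ComplexConjugate MatrixGroups UpperHalfPlane Matrix
open MeasureTheory Set Filter

namespace Pool.Agent.TH152.KG

open Pool.Agent.TH598.KG
open Pool.Agent.TH343.J117 (hf_pull hf_ext DD_apply DD_symm DD_conj DD_add_left DD_bound)
open Pool.Agent.W549.CY (Cn dz dzbar HermitianMetric chernRicci chernScalar)
open Pool.Agent.W711.KC (jj nn jj_ne)

/-- facts on the reference forms -/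
structure Ref (Γ : Subgroup SL(2, ℝ)) : Prop where
  g0_pos : ∀ p ∈ UU, ∀ v : Cn 3, v ≠ 0 → 0 < (hf (g0 p) v).re
  g0_herm : ∀ p ∈ UU, (g0 p).IsHermitian
  g0_det : ∀ p ∈ UU, (g0 p).det =
    (((p 0).im + 2 * nsq p : ℝ) : ℂ) / (4 * ((p 0).im : ℂ) * (Nn p : ℂ) ^ 4)
  bdd : Bdd rho0 4
  herm : ∀ p ∈ UU, (rho0 p).IsHermitian
  c1 : ∀ j k, ContDiffOn ℝ 1 (fun p => rho0 p j k) UU
  closed : Closed rho0
  equi : Equi Γ rho0

theorem Ref.g0_nonneg {Γ : Subgroup SL(2, ℝ)} (h : Ref Γ) :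
    ∀ p ∈ UU, ∀ v, 0 ≤ (hf (g0 p) v).re := by
  intro p hp v
  by_cases hv : v = 0
  · subst hv
    simp [hf]
  · exact (h.g0_pos p hp v hv).le

theorem IsForm.abs {Γ : Subgroup SL(2, ℝ)} (h : Ref Γ) {a : Cn 3 → M3} {C : ℝ}
    (ha : IsForm Γ a C) : IsForm Γ a |C| where
  c1 := ha.c1
  herm := ha.herm
  closed := ha.closed
  equi := ha.equi
  bdd := fun p hp v => (ha.bdd p hp v).trans
    (mul_le_mul_of_nonneg_right (le_abs_self C) (h.g0_nonneg p hp v))

theorem g0_det_le {Γ : Subgroup SL(2, ℝ)} (h : Ref Γ) {p : Cn 3} (hp : p ∈ UU) :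
    (g0 p).det.re ≤ 1 / 2 / ((p 0).im * Nn p ^ 3) := by
  have hy : 0 < (p 0).im := hp
  have hN := Nn_pos' hp
  have h0 : 0 ≤ nsq p := add_nonneg (Complex.normSq_nonneg _) (Complex.normSq_nonneg _)
  have e : (g0 p).det = ((((p 0).im + 2 * nsq p) / (4 * (p 0).im * Nn p ^ 4) : ℝ) : ℂ) := by
    rw [h.g0_det p hp]
    push_cast
    rfl
  rw [e, Complex.ofReal_re, div_div, div_le_div_iff₀ (by positivity) (by positivity)]
  have h1 : (p 0).im + 2 * nsq p ≤ 2 * Nn p := by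
    unfold Nn
    linarith
  have h2 : 0 ≤ 2 * ((p 0).im * Nn p ^ 3) := by positivity
  nlinarith [mul_le_mul_of_nonneg_right h1 h2]

theorem integrableOn_DD {Γ : Subgroup SL(2, ℝ)} (h : Ref Γ) {φ : ℂ → ℝ} (hφ : Cutoff Γ φ)
    {a b : Cn 3 → M3} {Ca Cb : ℝ} (ha : IsForm Γ a Ca) (hb : IsForm Γ b Cb) :
    IntegrableOn (fun p => (φ (p 0) : ℂ) * DD (rho0 p) (a p) (b p)) UU := by
  obtain ⟨K, hK, hKb⟩ := DD_bound
  refine integrableOn_of_bound (C := K * 4 * |Ca| * |Cb| * (1 / 2)) hφ.smooth.continuous hφ.compact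
    hφ.supp (continuousOn_DD (fun j k => (h.c1 j k).continuousOn)
      (fun j k => (ha.c1 j k).continuousOn) fun j k => (hb.c1 j k).continuousOn) ?_
  intro p hp
  have h1 := hKb (g0 p) (rho0 p) (a p) (b p) 4 |Ca| |Cb| (h.g0_herm p hp) (h.g0_pos p hp)
    (h.herm p hp) (ha.herm p hp) (hb.herm p hp) (by norm_num) (abs_nonneg _) (abs_nonneg _)
    (h.bdd p hp) ((IsForm.abs h ha).bdd p hp) ((IsForm.abs h hb).bdd p hp)
  refine h1.trans ?_
  rw [mul_div_assoc]
  have h2 := g0_det_le h hp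
  exact mul_le_mul_of_nonneg_left h2 (by positivity)

theorem rot_one (a : Cn 3 → M3) : rot 1 a = a := by
  funext p
  refine hf_ext fun v => ?_
  rw [hf_rot, ru_eq, ru_eq, RM_one, Matrix.one_mulVec, Matrix.one_mulVec]

theorem tendsto_cut {Γ : Subgroup SL(2, ℝ)} {φ : ℂ → ℝ} (hφ : Cutoff Γ φ) {G : Cn 3 → ℂ}
    (hG : ContinuousOn G UU) (hGi : IntegrableOn (fun p => (φ (p 0) : ℂ) * G p) UU) :
    Tendsto (fun R : ℝ => ∫ p in UU, (φ (p 0) : ℂ) * ((chi (ss p / R) : ℂ) * G p)) atTop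
      (𝓝 (∫ p in UU, (φ (p 0) : ℂ) * G p)) := by
  refine tendsto_integral_filter_of_dominated_convergence
    (fun p => ‖(φ (p 0) : ℂ) * G p‖) ?_ ?_ hGi.norm ?_
  · filter_upwards [eventually_gt_atTop 0] with R hR
    exact (integrableOn_cut hφ.smooth.continuous hφ.compact hφ.supp hR hG).aestronglyMeasurable
  · refine Eventually.of_forall fun R => Eventually.of_forall fun p => ?_
    rw [norm_mul, norm_mul, norm_mul, Complex.norm_real (chi _), Real.norm_of_nonneg (chi_nonneg _)]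
    have h1 := chi_le_one (ss p / R)
    have h2 := norm_nonneg (G p)
    have h3 := norm_nonneg (φ (p 0) : ℂ)
    exact mul_le_mul_of_nonneg_left (by nlinarith) h3
  · refine Eventually.of_forall fun p => ?_
    refine tendsto_const_nhds.congr' ?_
    filter_upwards [eventually_gt_atTop 0, eventually_ge_atTop (ss p)] with R hR hR'
    have : ss p / R ≤ 1 := (div_le_one hR).2 hR'
    rw [chi_one this]
    simp

/-- `phi_flow`, with the facts on the reference forms as a hypothesis. -/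
theorem phi_flow_aux {Γ : Subgroup SL(2, ℝ)} (href : Ref Γ) {φ : ℂ → ℝ} (hφ : Cutoff Γ φ)
    (hEX : ∃ K : ℝ, 0 ≤ K ∧ ∀ (a b : Cn 3 → M3) (η : Fin 3 → Cn 3 → ℂ) (Ca Cb Cη : ℝ),
      0 ≤ Ca → 0 ≤ Cb → 0 ≤ Cη →
      (∀ j k, ContDiffOn ℝ 1 (fun p => a p j k) UU) → (∀ j k, ContDiffOn ℝ 1 (fun p => b p j k) UU) →
      (∀ k, ContDiffOn ℝ 1 (η k) UU) →
      (∀ p ∈ UU, (a p).IsHermitian) → (∀ p ∈ UU, (b p).IsHermitian) →
      Equi Γ a → Equi Γ b → Equi01 Γ η → Bdd a Ca → Bdd b Cb →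
      (∀ p ∈ UU, ∀ v : Cn 3, ‖∑ k, η k p * conj (v k)‖ ^ 2 ≤ Cη ^ 2 * (hf (g0 p) v).re) →
      (∀ p ∈ UU, ∀ k, ∑ j, dz j (fun q => padj (a q) (b q) k j) p = 0) →
      ∀ R : ℝ, 1 ≤ R →
        ‖∫ p in UU, (φ (p 0) : ℂ) * ((chi (ss p / R) : ℂ) *
          DD (Matrix.of fun j k => dz j (η k) p) (a p) (b p))‖ ≤ K * Ca * Cb * Cη / √R)
    {a b : Cn 3 → M3} {Ca Cb : ℝ} (ha : IsForm Γ a Ca) (hb : IsForm Γ b Cb)
    {W : ℝ → Matrix (Fin 2) (Fin 2) ℂ} {X : Matrix (Fin 2) (Fin 2) ℂ}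
    (hW : ∀ t, W t ∈ Matrix.unitaryGroup (Fin 2) ℂ)
    (hWX : ∀ t, ∀ i j, HasDerivAt (fun t => W t i j) ((X * W t) i j) t)
    (hXW : ∀ t, X * W t = W t * X) (h0 : W 0 = 1) :
    Phi φ (rot (W 1) a) b = Phi φ a b := by
  obtain ⟨K, hK, hEX⟩ := hEX
  have ha' := IsForm.abs href ha
  have hb' := IsForm.abs href hb
  have hWc : ∀ i j, Continuous fun t => W t i j := fun i j =>
    continuous_iff_continuousAt.2 fun t => (hWX t i j).continuousAt
  set B : ℝ := 2 * (K * 4 * |Cb| * (|Ca| * √(MX X))) with hB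
  have hφc := hφ.smooth.continuous
  -- the families
  set G : ℝ → Cn 3 → ℂ := fun t p => DD (rho0 p) (rot (W t) a p) (b p) with hGdef
  set G' : ℝ → Cn 3 → ℂ := fun t p =>
    ∑ i, ∑ j, EE (X * W t) (W t) a p i j * padj (rho0 p) (b p) j i with hG'def
  have hρc : ∀ j k, ContinuousOn (fun p => rho0 p j k) UU := fun j k => (href.c1 j k).continuousOn
  have hbc : ∀ j k, ContinuousOn (fun p => b p j k) UU := fun j k => (hb.c1 j k).continuousOn
  have hG : ∀ t, ContinuousOn (G t) UU := fun t =>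
    continuousOn_DD hρc (continuousOn_rot ha.c1 (W t)) hbc
  have hG' : ContinuousOn (fun x : ℝ × Cn 3 => G' x.1 x.2) (univ ×ˢ UU) := by
    refine continuousOn_finsetSum _ fun i _ => continuousOn_finsetSum _ fun j _ => ?_
    refine (continuousOn_EE ha.c1 X hWc i j).mul ?_
    exact (continuousOn_padj hρc hbc j i).comp continuous_snd.continuousOn fun x hx => hx.2
  have hd : ∀ t, ∀ p ∈ UU, HasDerivAt (fun s => G s p) (G' t p) t := by
    intro t p hp
    have e : (fun s => G s p) = fun s => ∑ i, ∑ j, rot (W s) a p i j * padj (rho0 p) (b p) j i := by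
      funext s
      simp only [hGdef]
      rw [(DD_symm _ _ _).2, DD_apply]
    rw [e]
    exact HasDerivAt.fun_sum fun i _ => HasDerivAt.fun_sum fun j _ =>
      (hasDerivAt_rot_gen ha.c1 (hWX t) hp i j).mul_const _
  -- the bound of the derivative
  have hbound : ∀ R : ℝ, 1 ≤ R → ∀ t : ℝ,
      ‖∫ p in UU, (φ (p 0) : ℂ) * ((chi (ss p / R) : ℂ) * G' t p)‖ ≤ B / √R := by
    intro R hR t
    have hR0 : 0 < R := by linarith
    have hF := IsForm.rot ha' (hW t)
    have hηc := contDiffOn_eta hF.c1 X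
    set Z : Cn 3 → ℂ := fun p =>
      DD (Matrix.of fun j k => dz j (eta X (rot (W t) a) k) p) (rho0 p) (b p) with hZ
    have hI := hEX rho0 b (eta X (rot (W t) a)) 4 |Cb| (|Ca| * √(MX X)) (by norm_num)
      (abs_nonneg _) (by positivity) href.c1 hb.c1 hηc href.herm hb.herm href.equi hb.equi
      (equi01_eta hF.equi X) href.bdd hb'.bdd
      (fun p hp v => eta_bound hF (abs_nonneg _) href.g0_nonneg X hp v)
      (fun p hp k => padj_div_free href.c1 hb.c1 href.closed hb.closed hp k) R hR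
    have hdzc : ∀ j k, ContinuousOn (fun p => dz j (eta X (rot (W t) a) k) p) UU := by
      intro j k
      have h1 : ContinuousOn (fun q => fderiv ℝ (eta X (rot (W t) a) k) q) UU :=
        (hηc k).continuousOn_fderiv_of_isOpen isOpen_UU le_rfl
      unfold dz
      exact continuousOn_const.mul ((h1.clm_apply continuousOn_const).sub
        (continuousOn_const.mul (h1.clm_apply continuousOn_const)))
    have hZc : ContinuousOn Z UU := continuousOn_DD (fun j k => hdzc j k) hρc hbc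
    have hGZ : ∀ p ∈ UU, G' t p = Z p + conj (Z p) := by
      intro p hp
      have e1 : DD ((Matrix.of fun j k => dz j (eta X (rot (W t) a) k) p) +
          (Matrix.of fun j k => dz j (eta X (rot (W t) a) k) p)ᴴ) (rho0 p) (b p) = G' t p := by
        rw [DD_apply]
        simp only [hG'def]
        refine Finset.sum_congr rfl fun i _ => Finset.sum_congr rfl fun j _ => ?_
        rw [EE_eq ha hW hWX hXW t hp i j]
        rfl
      rw [← e1, DD_add_left]
      congr 1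
      simp only [hZ]
      rw [← DD_conj]
      have e2 : (rho0 p)ᴴ = rho0 p := href.herm p hp
      have e3 : (b p)ᴴ = b p := hb.herm p hp
      rw [e2, e3]
    have hint := integrableOn_cut hφc hφ.compact hφ.supp hR0 hZc
    have hint' := integrableOn_cut hφc hφ.compact hφ.supp hR0
      (Complex.continuous_conj.comp_continuousOn hZc)
    have e4 : ∫ p in UU, (φ (p 0) : ℂ) * ((chi (ss p / R) : ℂ) * G' t p) =
        (∫ p in UU, (φ (p 0) : ℂ) * ((chi (ss p / R) : ℂ) * Z p)) +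
        conj (∫ p in UU, (φ (p 0) : ℂ) * ((chi (ss p / R) : ℂ) * Z p)) := by
      rw [← integral_conj, ← integral_add hint (by
        refine hint'.congr (Eventually.of_forall fun p => ?_)
        simp [Function.comp])]
      refine setIntegral_congr_fun measurableSet_UU fun p hp => ?_
      simp only [map_mul, Complex.conj_ofReal]
      rw [hGZ p hp]
      ring
    rw [e4]
    refine (norm_add_le _ _).trans ?_
    rw [RCLike.norm_conj, hB]
    have e5 : 2 * (K * 4 * |Cb| * (|Ca| * √(MX X))) / √R =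
        K * 4 * |Cb| * (|Ca| * √(MX X)) / √R + K * 4 * |Cb| * (|Ca| * √(MX X)) / √R := by
      ring
    rw [e5]
    exact add_le_add hI hI
  -- the mean value inequality
  have hmv : ∀ R : ℝ, 1 ≤ R →
      ‖(∫ p in UU, (φ (p 0) : ℂ) * ((chi (ss p / R) : ℂ) * G 1 p)) -
        ∫ p in UU, (φ (p 0) : ℂ) * ((chi (ss p / R) : ℂ) * G 0 p)‖ ≤ B / √R := by
    intro R hR
    have hR0 : 0 < R := by linarith
    refine norm_image_sub_le_of_norm_deriv_le_segment_01'
      (f := fun t => ∫ p in UU, (φ (p 0) : ℂ) * ((chi (ss p / R) : ℂ) * G t p))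
      (f' := fun t => ∫ p in UU, (φ (p 0) : ℂ) * ((chi (ss p / R) : ℂ) * G' t p)) ?_ ?_
    · intro t _
      exact (hasDerivAt_cut hφc hφ.compact hφ.supp hR0 hG hG' hd t).hasDerivWithinAt
    · intro t _
      exact hbound R hR t
  -- the limit
  have hlim : ∀ t, Tendsto (fun R : ℝ => ∫ p in UU, (φ (p 0) : ℂ) *
      ((chi (ss p / R) : ℂ) * G t p)) atTop (𝓝 (Phi φ (rot (W t) a) b)) := fun t =>
    tendsto_cut hφ (hG t) (integrableOn_DD href hφ (IsForm.rot ha (hW t)) hb)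
  have hlim2 := (hlim 1).sub (hlim 0)
  have hzero : Tendsto (fun R : ℝ => B / √R) atTop (𝓝 0) :=
    Tendsto.div_atTop tendsto_const_nhds (Real.tendsto_sqrt_atTop)
  have hlim3 : Tendsto (fun R : ℝ => (∫ p in UU, (φ (p 0) : ℂ) *
      ((chi (ss p / R) : ℂ) * G 1 p)) - ∫ p in UU, (φ (p 0) : ℂ) *
      ((chi (ss p / R) : ℂ) * G 0 p)) atTop (𝓝 0) := by
    refine squeeze_zero_norm' ?_ hzero
    filter_upwards [eventually_ge_atTop 1] with R hR
    exact hmv R hR
  have hfin := tendsto_nhds_unique hlim2 hlim3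
  rw [h0, rot_one] at hfin
  exact sub_eq_zero.1 hfin

end Pool.Agent.TH152.KG
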